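import Pool.Agent.Q295.BD.Swap

/-!
# Localisation of the quadratic form of the cycles
-/

set_option autoImplicit false
set_option linter.unusedSectionVars false

namespace Pool.Agent.Q295.BD

open Finset Equiv
open Pool.Agent.Y998.ST
open Pool.Agent.Y661.PD (hel)
open Pool.Agent.Q295.TP (sm sm_nonneg sm_le_one cy_iff)
open Pool.Agent.TH268.PD (Cyc cyOf)

section gen

variable {V : Type} [Fintype V] [DecidableEq V]

open Classical in
theorem sm_sum (g : Perm V) [Fintype (Cyc g)] (x y : V) : sm g x y =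
    ∑ γ : Cyc g, (if cyOf g x = γ then (1 : ℝ) else 0) * (if cyOf g y = γ then (1 : ℝ) else 0) := by
  rw [Finset.sum_eq_single (cyOf g x)]
  · rw [if_pos rfl, one_mul]
    unfold sm
    by_cases h : g.SameCycle x y
    · rw [if_pos h, if_pos ((cy_iff g y x).2 h.symm)]
    · rw [if_neg h, if_neg (fun h1 => h ((cy_iff g y x).1 h1).symm)]
  · intro γ _ hγ
    rw [if_neg (Ne.symm hγ), zero_mul]
  · intro h; exact absurd (Finset.mem_univ _) h

/-- the bilinear form of the cycles -/
noncomputable def bf (g : Perm V) (u v : V → ℝ) : ℝ := ∑ x, ∑ y, u x * v y * sm g x y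

theorem bf_nonneg (g : Perm V) (u : V → ℝ) : 0 ≤ bf g u u := by
  classical
  haveI : Finite (Cyc g) := Quotient.finite _
  haveI := Fintype.ofFinite (Cyc g)
  have h1 : bf g u u = ∑ γ : Cyc g, (∑ x, u x * (if cyOf g x = γ then (1 : ℝ) else 0)) ^ 2 := by
    unfold bf
    have h2 : ∀ x y, u x * u y * sm g x y = ∑ γ : Cyc g,
        (u x * (if cyOf g x = γ then (1 : ℝ) else 0)) *
          (u y * (if cyOf g y = γ then (1 : ℝ) else 0)) := by
      intro x y
      rw [sm_sum, Finset.mul_sum]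
      exact Finset.sum_congr rfl fun γ _ => by ring
    simp only [h2]
    have h3 : ∀ x, ∑ y, ∑ γ : Cyc g, (u x * (if cyOf g x = γ then (1 : ℝ) else 0)) *
          (u y * (if cyOf g y = γ then (1 : ℝ) else 0)) = ∑ γ : Cyc g, ∑ y,
          (u x * (if cyOf g x = γ then (1 : ℝ) else 0)) *
          (u y * (if cyOf g y = γ then (1 : ℝ) else 0)) := fun x => Finset.sum_comm
    simp only [h3]
    rw [Finset.sum_comm]
    refine Finset.sum_congr rfl fun γ _ => ?_
    rw [sq, Finset.sum_mul_sum]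
  rw [h1]
  exact Finset.sum_nonneg fun γ _ => sq_nonneg _

theorem sm_symm (g : Perm V) (x y : V) : sm g x y = sm g y x := by
  unfold sm
  by_cases h : g.SameCycle x y
  · rw [if_pos h, if_pos h.symm]
  · rw [if_neg h, if_neg (fun h1 => h h1.symm)]

theorem bf_symm (g : Perm V) (u v : V → ℝ) : bf g u v = bf g v u := by
  unfold bf
  rw [Finset.sum_comm]
  refine Finset.sum_congr rfl fun x _ => Finset.sum_congr rfl fun y _ => ?_
  rw [sm_symm]
  ring

theorem bf_young (g : Perm V) (u v : V → ℝ) (a b : ℝ) :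
    2 * (a * b) * bf g u v ≤ a ^ 2 * bf g u u + b ^ 2 * bf g v v := by
  have h1 := bf_nonneg g (fun x => a * u x - b * v x)
  have h2 : bf g (fun x => a * u x - b * v x) (fun x => a * u x - b * v x) =
      a ^ 2 * bf g u u - a * b * bf g u v - a * b * bf g v u + b ^ 2 * bf g v v := by
    unfold bf
    simp only [Finset.mul_sum, ← Finset.sum_sub_distrib, ← Finset.sum_add_distrib]
    exact Finset.sum_congr rfl fun x _ => Finset.sum_congr rfl fun y _ => by ring
  rw [bf_symm g v u] at h2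
  linarith

theorem sm_move (g : Perm V) (x y : V) : sm g (g x) y = sm g x y := by
  unfold sm
  by_cases h : g.SameCycle x y
  · rw [if_pos h, if_pos (Perm.sameCycle_apply_left.2 h)]
  · rw [if_neg h, if_neg (fun h1 => h (Perm.sameCycle_apply_left.1 h1))]

theorem bf_move (g : Perm V) (u v : V → ℝ) : bf g (fun x => u (g x)) v = bf g u v := by
  unfold bf
  rw [← Equiv.sum_comp g (fun x => ∑ y, u x * v y * sm g x y)]
  refine Finset.sum_congr rfl fun x _ => Finset.sum_congr rfl fun y _ => ?_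
  rw [sm_move]

theorem bf_nv (e : V → ℝ) (Λ t : ℝ) (g : Perm V) :
    bf g (nv e Λ t g) e = (1 - Real.exp (-(t * Λ))) * bf g e e := by
  have h1 : bf g (nv e Λ t g) e = bf g (fun x => e (g x)) e - Real.exp (-(t * Λ)) * bf g e e := by
    unfold bf nv
    simp only [Finset.mul_sum, ← Finset.sum_sub_distrib]
    exact Finset.sum_congr rfl fun x _ => Finset.sum_congr rfl fun y _ => by ring
  rw [h1, bf_move]
  ring

end gen

section grp

variable {V : Type} [Fintype V] [DecidableEq V] [AddCommGroup V]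

/-- indicator of a translate -/
noncomputable def wt (S : Finset V) (z x : V) : ℝ := if x - z ∈ S then 1 else 0

theorem wt_sum (S : Finset V) (x : V) : ∑ z, wt S z x = S.card := by
  unfold wt
  rw [← Equiv.sum_comp (Equiv.subLeft x) (fun z => if x - z ∈ S then (1 : ℝ) else 0)]
  simp only [Equiv.subLeft_apply, sub_sub_cancel]
  rw [Finset.sum_ite_mem, Finset.univ_inter, Finset.sum_const, nsmul_eq_mul, mul_one]

theorem wt_sum' (S : Finset V) (z : V) : ∑ x, wt S z x = S.card := by
  unfold wt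
  rw [← Equiv.sum_comp (Equiv.addRight z) (fun x => if x - z ∈ S then (1 : ℝ) else 0)]
  simp only [Equiv.coe_addRight, add_sub_cancel_right]
  rw [Finset.sum_ite_mem, Finset.univ_inter, Finset.sum_const, nsmul_eq_mul, mul_one]

theorem wt_nonneg (S : Finset V) (z x : V) : 0 ≤ wt S z x := by
  unfold wt; split_ifs <;> norm_num

theorem wt_sq (S : Finset V) (z x : V) : wt S z x ^ 2 = wt S z x := by
  unfold wt; split_ifs <;> norm_num

/-- localisation, pointwise -/
theorem local_pt (S : Finset V) (e : V → ℝ) (Λ t : ℝ) (g : Perm V) :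
    (S.card : ℝ) ^ 2 * (1 - Real.exp (-(t * Λ))) ^ 2 * bf g e e ≤
      Fintype.card V * ∑ z, bf g (fun x => wt S z x * nv e Λ t g x)
        (fun x => wt S z x * nv e Λ t g x) := by
  obtain ⟨c, hc⟩ : ∃ c, c = Real.exp (-(t * Λ)) := ⟨_, rfl⟩
  obtain ⟨m, hm⟩ : ∃ m : ℝ, m = S.card := ⟨_, rfl⟩
  obtain ⟨N, hN⟩ : ∃ N : ℝ, N = Fintype.card V := ⟨_, rfl⟩
  have hN0 : 0 < N := by rw [hN]; exact_mod_cast Fintype.card_pos
  have h1 : ∀ z, 2 * (N * (m * (1 - c))) * bf g (fun x => wt S z x * nv e Λ t g x) e ≤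
      N ^ 2 * bf g (fun x => wt S z x * nv e Λ t g x) (fun x => wt S z x * nv e Λ t g x) +
        (m * (1 - c)) ^ 2 * bf g e e := fun z => bf_young g _ _ _ _
  have h2 := Finset.sum_le_sum (s := Finset.univ) fun z _ => h1 z
  rw [← Finset.mul_sum, Finset.sum_add_distrib, ← Finset.mul_sum, Finset.sum_const,
    Finset.card_univ, nsmul_eq_mul, ← hN] at h2
  have h3 : ∑ z, bf g (fun x => wt S z x * nv e Λ t g x) e = m * ((1 - c) * bf g e e) := by
    rw [hc, ← bf_nv, hm]
    unfold bf
    rw [Finset.sum_comm, Finset.mul_sum]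
    refine Finset.sum_congr rfl fun x _ => ?_
    rw [Finset.sum_comm, Finset.mul_sum]
    refine Finset.sum_congr rfl fun y _ => ?_
    rw [← wt_sum S x, Finset.sum_mul]
    exact Finset.sum_congr rfl fun z _ => by ring
  rw [h3] at h2
  rw [← hc, ← hm, ← hN]
  obtain ⟨T, hT⟩ : ∃ T, T = ∑ z, bf g (fun x => wt S z x * nv e Λ t g x)
        (fun x => wt S z x * nv e Λ t g x) := ⟨_, rfl⟩
  rw [← hT] at h2 ⊢
  have h4 : N * (m ^ 2 * (1 - c) ^ 2 * bf g e e) ≤ N * (N * T) := by nlinarith
  exact le_of_mul_le_mul_left h4 hN0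

/-- localisation -/
theorem local_exp {J : V → V → ℝ} (hJ : ∀ x y, 0 ≤ J x y) {e : V → ℝ} {Λ t : ℝ} (ht : 0 ≤ t)
    (S : Finset V) (hS : 0 < S.card) {κ₁ κ₂ : ℝ} (h₂ : 0 ≤ κ₂)
    (h1 : ∀ x, stirExp J t (fun g => nv e Λ t g x ^ 2) ≤ κ₁)
    (h2 : ∀ x y, x ≠ y → (∃ z, x - z ∈ S ∧ y - z ∈ S) →
      stirExp J t (fun g => nv e Λ t g x * nv e Λ t g y * sm g x y) ≤ κ₂) :
    (1 - Real.exp (-(t * Λ))) ^ 2 * (stirExp J t (fun g => bf g e e) / Fintype.card V ^ 2) ≤
      κ₁ / S.card + κ₂ := by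
  obtain ⟨m, hm⟩ : ∃ m : ℝ, m = S.card := ⟨_, rfl⟩
  obtain ⟨N, hN⟩ : ∃ N : ℝ, N = Fintype.card V := ⟨_, rfl⟩
  have hN0 : 0 < N := by rw [hN]; exact_mod_cast Fintype.card_pos
  have hm0 : 0 < m := by rw [hm]; exact_mod_cast hS
  have h3 := exp_mono hJ ht (fun g => local_pt S e Λ t g)
  rw [e_mul, e_mul, ← exp_sum, ← hm, ← hN] at h3
  have h4 : ∀ z, stirExp J t (fun g => bf g (fun x => wt S z x * nv e Λ t g x)
      (fun x => wt S z x * nv e Λ t g x)) ≤ m * κ₁ + m ^ 2 * κ₂ := by
    intro z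
    have e1 : (fun g : Perm V => bf g (fun x => wt S z x * nv e Λ t g x)
        (fun x => wt S z x * nv e Λ t g x)) = fun g => ∑ x, ∑ y, (wt S z x * wt S z y) *
          (nv e Λ t g x * nv e Λ t g y * sm g x y) := by
      funext g
      unfold bf
      exact Finset.sum_congr rfl fun x _ => Finset.sum_congr rfl fun y _ => by ring
    rw [e1, ← exp_sum]
    have e2 : ∀ x, stirExp J t (fun g => ∑ y, (wt S z x * wt S z y) *
          (nv e Λ t g x * nv e Λ t g y * sm g x y)) = ∑ y, (wt S z x * wt S z y) *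
          stirExp J t (fun g => nv e Λ t g x * nv e Λ t g y * sm g x y) := by
      intro x
      rw [← exp_sum]
      exact Finset.sum_congr rfl fun y _ => e_mul _ _ _ _
    simp only [e2]
    have e3 : ∀ x y, (wt S z x * wt S z y) *
          stirExp J t (fun g => nv e Λ t g x * nv e Λ t g y * sm g x y) ≤
          (if x = y then wt S z x * κ₁ else 0) + wt S z x * wt S z y * κ₂ := by
      intro x y
      by_cases hxy : x = y
      · subst hxy
        rw [if_pos rfl, ← sq, wt_sq]
        have e4 : (fun g : Perm V => nv e Λ t g x * nv e Λ t g x * sm g x x) =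
            fun g => nv e Λ t g x ^ 2 := by
          funext g
          unfold sm
          rw [if_pos (Perm.SameCycle.refl g x)]
          ring
        rw [e4]
        have := mul_le_mul_of_nonneg_left (h1 x) (wt_nonneg S z x)
        have := mul_nonneg (wt_nonneg S z x) h₂
        linarith
      · rw [if_neg hxy, zero_add]
        by_cases hx : x - z ∈ S
        · by_cases hy : y - z ∈ S
          · exact mul_le_mul_of_nonneg_left (h2 x y hxy ⟨z, hx, hy⟩)
              (mul_nonneg (wt_nonneg _ _ _) (wt_nonneg _ _ _))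
          · have : wt S z y = 0 := by unfold wt; rw [if_neg hy]
            rw [this]; simp
        · have : wt S z x = 0 := by unfold wt; rw [if_neg hx]
          rw [this]; simp
    refine (Finset.sum_le_sum fun x _ => Finset.sum_le_sum fun y _ => e3 x y).trans ?_
    simp only [Finset.sum_add_distrib, Finset.sum_ite_eq, Finset.mem_univ, if_true]
    rw [← Finset.sum_mul, wt_sum', ← hm]
    simp only [← Finset.sum_mul, ← Finset.mul_sum]
    rw [wt_sum', ← hm]
    exact le_of_eq (by ring)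
  have h5 : ∑ z, stirExp J t (fun g => bf g (fun x => wt S z x * nv e Λ t g x)
      (fun x => wt S z x * nv e Λ t g x)) ≤ N * (m * κ₁ + m ^ 2 * κ₂) := by
    refine (Finset.sum_le_sum fun z _ => h4 z).trans ?_
    rw [Finset.sum_const, Finset.card_univ, nsmul_eq_mul, hN]
  have h6 := h3.trans (mul_le_mul_of_nonneg_left h5 hN0.le)
  rw [← hm, ← hN]
  obtain ⟨X, hX⟩ : ∃ X, X = stirExp J t (fun g => bf g e e) := ⟨_, rfl⟩
  rw [← hX] at h6 ⊢
  have e5 : (1 - Real.exp (-(t * Λ))) ^ 2 * (X / N ^ 2) =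
      (m ^ 2 * (1 - Real.exp (-(t * Λ))) ^ 2 * X) / (m ^ 2 * N ^ 2) := by
    field_simp
  have e6 : κ₁ / m + κ₂ = (N * (N * (m * κ₁ + m ^ 2 * κ₂))) / (m ^ 2 * N ^ 2) := by
    field_simp
  rw [e5, e6]
  exact div_le_div_of_nonneg_right h6 (by positivity)

end grp

end Pool.Agent.Q295.BD
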