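import Pool.Agent.Q295.BD.Sum
import Pool.Agent.Results.MP_b817cf_pr.TwoPointCriterion

/-!
# Two uniform points below the diffusive scale
-/

set_option autoImplicit false
set_option linter.unusedSectionVars false

namespace Pool.Agent.Q295.BD

open Finset Equiv Filter Topology
open Pool.Agent.Y998.ST
open Pool.Agent.Y998.LP (tdist NN)
open Pool.Agent.Q295.TP (sm sm_nonneg sm_le_one gg qq2 gg_trans gg_nonneg gg_le_one exists_box)
open Pool.Agent.Results.MP_b817cf_pr.TwoPointCriterion (qq2_ge)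

/-- the exponent -/
noncomputable def ae (d : ℕ) : ℝ := 4 * (d + 1) / (3 * d + 2)

theorem tdist_le {d L : ℕ} [NeZero L] (x y : Fin d → ZMod L) : (tdist x y : ℝ) ≤ d * L := by
  have h1 : tdist x y ≤ ∑ _i : Fin d, L := by
    unfold tdist
    refine Finset.sum_le_sum fun i _ => ?_
    exact (ZMod.natAbs_valMinAbs_le _).trans (Nat.div_le_self _ _)
  rw [Finset.sum_const, Finset.card_univ, Fintype.card_fin, smul_eq_mul] at h1
  exact_mod_cast h1

/-- above the diffusive scale -/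
theorem above {d L : ℕ} [NeZero L] {C t : ℝ} (ht : 0 < t)
    (hN : ∀ x y : Fin d → ZMod L, NN (nnRate d L) t (swap x y) ≤ C * tdist x y / Real.sqrt t)
    (hC : 0 ≤ C) {δ : ℝ} (hδ : 0 ≤ δ) (h : 2 * (C * (d * L) / Real.sqrt t) ≤ δ) :
    1 / 2 - δ ≤ qq2 (nnRate d L) t := by
  classical
  refine qq2_ge d L t _ (by linarith) fun x y hxy => ?_
  have h1 := Pool.Agent.Results.MP_b817cf_pr.LocalPoissonDirichlet.two_points (nnRate d L) t x y hxy
  have h2 : gg (nnRate d L) t x y = stirExp (nnRate d L) t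
      (fun g => if g.SameCycle x y then 1 else 0) := by
    unfold gg sm
    congr!
  rw [← h2] at h1
  have h3 := (abs_le.1 h1).1
  have h4 := hN x y
  have hst : 0 < Real.sqrt t := Real.sqrt_pos.2 ht
  have h5 : C * tdist x y / Real.sqrt t ≤ C * (d * L) / Real.sqrt t :=
    div_le_div_of_nonneg_right (mul_le_mul_of_nonneg_left (tdist_le x y) hC) hst.le
  linarith

/-- the box as a set of translates -/
theorem box_rho {d L : ℕ} [NeZero L] {r : ℕ} (h1 : 1 ≤ r) (h2 : r ≤ L) :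
    ∃ S : Finset (Fin d → ZMod L), S.card = r ^ d ∧
      ∀ x y z, x - z ∈ S → y - z ∈ S → (tdist x y : ℝ) ≤ d * r := by
  obtain ⟨A, _, hA, hd⟩ := exists_box (d := d) h1 h2 0
  refine ⟨A, hA, fun x y z hx hy => ?_⟩
  have h3 := hd _ hx _ hy
  have h4 : tdist (x - z) (y - z) = tdist x y := by
    unfold tdist
    refine Finset.sum_congr rfl fun i _ => ?_
    rw [Pi.sub_apply, Pi.sub_apply, sub_sub_sub_cancel_right]
  rw [h4] at h3
  exact_mod_cast h3

theorem log_pow {β : ℝ} (hβ : 0 < β) {t : ℝ} (ht : 1 ≤ t) :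
    2 + Real.log (3 + 2 * t) ≤ (2 + 5 ^ β / β) * t ^ β := by
  have h1 : Real.log (3 + 2 * t) ≤ (5 * t) ^ β / β := by
    refine (Real.log_le_log (by linarith) (show 3 + 2 * t ≤ 5 * t by linarith)).trans ?_
    exact Real.log_le_rpow_div (by linarith) hβ
  rw [Real.mul_rpow (by norm_num) (by linarith)] at h1
  have h2 : 1 ≤ t ^ β := Real.one_le_rpow ht hβ.le
  have h3 : 5 ^ β * t ^ β / β = 5 ^ β / β * t ^ β := by ring
  rw [h3] at h1
  nlinarith

/-- the error of the box -/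
theorem box_err {d : ℕ} {β : ℝ} (hβ : 0 < β) : ∃ K : ℝ, 0 < K ∧
    ∀ t : ℝ, 1 ≤ t → ∀ r : ℕ, t ^ (1 / (2 * ((d : ℝ) + 1))) ≤ r →
      (r : ℝ) ≤ 2 * t ^ (1 / (2 * ((d : ℝ) + 1))) →
      (d * r) * Real.sqrt (h1 d t) ≤ K * t ^ (β - Pool.Agent.Q295.TP.kap d) ∧
      4 / ((r ^ d : ℕ) : ℝ) + 60 * ((d * r) * Real.sqrt (h1 d t)) ≤
        K * t ^ (β - Pool.Agent.Q295.TP.kap d) := by
  obtain ⟨K1, hK1⟩ : ∃ K1 : ℝ, K1 = Real.sqrt (d * (2 + 5 ^ (2 * β) / (2 * β)) / 2) := ⟨_, rfl⟩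
  have hK10 : 0 ≤ K1 := by rw [hK1]; exact Real.sqrt_nonneg _
  obtain ⟨p, hp⟩ : ∃ p : ℝ, p = 1 / (2 * ((d : ℝ) + 1)) := ⟨_, rfl⟩
  refine ⟨4 + 120 * d * K1, by positivity, fun t ht r hr1 hr2 => ?_⟩
  rw [← hp] at hr1 hr2
  have ht0 : 0 < t := by linarith
  have hd0 : (0 : ℝ) ≤ d := by positivity
  have h2 : Real.sqrt (h1 d t) ≤ K1 * t ^ (β - 1 / 2) := by
    have h3 := log_pow (show 0 < 2 * β by linarith) ht
    have h4 : h1 d t ≤ (d * (2 + 5 ^ (2 * β) / (2 * β)) / 2) * (t ^ (β - 1 / 2)) ^ 2 := by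
      have e1 : (t ^ (β - 1 / 2)) ^ 2 = t ^ (2 * β) / t := by
        rw [← Real.rpow_natCast, ← Real.rpow_mul ht0.le]
        have : (β - 1 / 2) * ((2 : ℕ) : ℝ) = 2 * β - 1 := by push_cast; ring
        rw [this, Real.rpow_sub_one ht0.ne']
      rw [e1]
      unfold h1
      have h5 := mul_le_mul_of_nonneg_left h3 hd0
      calc d * (2 + Real.log (3 + 2 * t)) / (2 * t)
          ≤ d * ((2 + 5 ^ (2 * β) / (2 * β)) * t ^ (2 * β)) / (2 * t) :=
            div_le_div_of_nonneg_right h5 (by positivity)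
        _ = _ := by field_simp
    have h5 := Real.sqrt_le_sqrt h4
    rw [Real.sqrt_mul' _ (sq_nonneg _), Real.sqrt_sq (by positivity), ← hK1] at h5
    exact h5
  have hr0 : (0 : ℝ) ≤ r := by positivity
  have h3 : (d * r) * Real.sqrt (h1 d t) ≤ 2 * d * K1 * t ^ (β - Pool.Agent.Q295.TP.kap d) := by
    calc (d * r) * Real.sqrt (h1 d t) ≤ (d * (2 * t ^ p)) * (K1 * t ^ (β - 1 / 2)) :=
          mul_le_mul (mul_le_mul_of_nonneg_left hr2 hd0) h2 (Real.sqrt_nonneg _) (by positivity)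
      _ = 2 * d * K1 * (t ^ p * t ^ (β - 1 / 2)) := by ring
      _ = _ := by
          rw [← Real.rpow_add ht0]
          congr 2
          rw [hp]
          unfold Pool.Agent.Q295.TP.kap
          field_simp
          ring
  have h4 : 1 / ((r ^ d : ℕ) : ℝ) ≤ t ^ (β - Pool.Agent.Q295.TP.kap d) := by
    have h5 : 0 < t ^ p := Real.rpow_pos_of_pos ht0 _
    have h6 : (t ^ p) ^ d ≤ ((r ^ d : ℕ) : ℝ) := by
      push_cast
      exact pow_le_pow_left₀ h5.le hr1 d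
    refine (one_div_le_one_div_of_le (by positivity) h6).trans ?_
    rw [← Real.rpow_natCast, ← Real.rpow_mul ht0.le, one_div, ← Real.rpow_neg ht0.le]
    refine Real.rpow_le_rpow_of_exponent_le ht ?_
    have : p * (d : ℝ) = Pool.Agent.Q295.TP.kap d := by
      rw [hp]
      unfold Pool.Agent.Q295.TP.kap
      field_simp
    rw [this]
    linarith
  have h5 : 0 < t ^ (β - Pool.Agent.Q295.TP.kap d) := Real.rpow_pos_of_pos ht0 _
  have h6 : 0 ≤ d * K1 := by positivity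
  have h7 : 4 / ((r ^ d : ℕ) : ℝ) = 4 * (1 / ((r ^ d : ℕ) : ℝ)) := by ring
  constructor
  · nlinarith [mul_nonneg h6 h5.le]
  · rw [h7]
    nlinarith [mul_nonneg h6 h5.le]

/-- two uniform points below the diffusive scale -/
theorem q_final (d : ℕ) (hd : 1 ≤ d) (hd2 : d ≤ 2) (ε : ℝ) (hε : 0 < ε) (δ : ℝ) (hδ : 0 < δ) :
    ∃ L₀ : ℕ, ∀ (L : ℕ) [NeZero L], L₀ ≤ L → ∀ t : ℝ, (L : ℝ) ^ (ae d + ε) ≤ t →
      1 ≤ t ∧ 1 / 2 - δ ≤ qq2 (nnRate d L) t := by
  obtain ⟨C, hC, hdist⟩ := Pool.Agent.Y998.LQ.t_dist d hd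
  have hdR : (1 : ℝ) ≤ d := by exact_mod_cast hd
  obtain ⟨κ, hκ⟩ : ∃ κ : ℝ, κ = Pool.Agent.Q295.TP.kap d := ⟨_, rfl⟩
  have hκ0 : 0 < κ := by rw [hκ]; unfold Pool.Agent.Q295.TP.kap; positivity
  have ha0 : 0 < ae d := by unfold ae; positivity
  have haκ : ae d * (κ + 1) = 2 := by
    rw [hκ]
    unfold ae Pool.Agent.Q295.TP.kap
    field_simp
    ring
  -- the small exponent
  obtain ⟨β, hβ⟩ : ∃ β : ℝ, β = min (ε * (κ + 1) / (2 * (ae d + ε + d))) (κ / 2) := ⟨_, rfl⟩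
  have hβ0 : 0 < β := by
    rw [hβ]
    exact lt_min (by positivity) (by positivity)
  have hβ1 : β * (ae d + ε + d) ≤ ε * (κ + 1) / 2 := by
    have h1 : β ≤ ε * (κ + 1) / (2 * (ae d + ε + d)) := by rw [hβ]; exact min_le_left _ _
    have h2 := mul_le_mul_of_nonneg_right h1 (show 0 ≤ ae d + ε + d by positivity)
    refine h2.trans (le_of_eq ?_)
    have : ae d + ε + d ≠ 0 := by positivity
    field_simp
  have hβ2 : β < κ := by
    have : β ≤ κ / 2 := by rw [hβ]; exact min_le_right _ _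
    linarith
  obtain ⟨K, hK, hbox⟩ := box_err (d := d) hβ0
  rw [← hκ] at hbox
  -- the choice of A
  obtain ⟨A, hA⟩ : ∃ A : ℝ, A = max 1 ((2 * C * d / δ) ^ 2) := ⟨_, rfl⟩
  have hA1 : 1 ≤ A := by rw [hA]; exact le_max_left _ _
  have hA2 : 2 * C * d / δ ≤ Real.sqrt A := by
    apply Real.le_sqrt_of_sq_le
    rw [hA]; exact le_max_right _ _
  -- the choice of σ and Y
  obtain ⟨σ, hσ⟩ : ∃ σ : ℝ, σ = δ / (3 * (2 * C * (d * Real.sqrt 5))) := ⟨_, rfl⟩
  have h50 : 0 < Real.sqrt 5 := Real.sqrt_pos.2 (by norm_num)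
  have hσ0 : 0 < σ := by rw [hσ]; positivity
  obtain ⟨Y, hY⟩ : ∃ Y : ℝ, Y = 3 / (δ * σ ^ 2) := ⟨_, rfl⟩
  have hY0 : 0 < Y := by rw [hY]; positivity
  have hYe : Real.exp (-(σ ^ 2 * Y)) ≤ δ / 3 := by
    have h1 : σ ^ 2 * Y = 3 / δ := by
      rw [hY]
      field_simp
    rw [h1]
    have h2 : 3 / δ ≤ Real.exp (3 / δ) := by linarith [Real.add_one_le_exp (3 / δ)]
    rw [Real.exp_neg, inv_le_comm₀ (Real.exp_pos _) (by positivity)]
    rw [inv_div]
    exact h2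
  -- powers of L
  obtain ⟨K2, hK2⟩ : ∃ K2 : ℝ, K2 = K * (1 + Y) ^ 2 * ((3 + 2 / β) ^ d / 16) := ⟨_, rfl⟩
  have hK20 : 0 < K2 := by rw [hK2]; positivity
  have hcast : Tendsto (fun L : ℕ => (L : ℝ)) atTop atTop := tendsto_natCast_atTop_atTop
  have E1 : ∀ᶠ L : ℕ in atTop, K2 * (L : ℝ) ^ (-(ε * (κ + 1) / 2)) ≤ δ / 3 := by
    have h1 := ((tendsto_rpow_neg_atTop (show 0 < ε * (κ + 1) / 2 by positivity)).comp
      hcast).const_mul K2
    rw [mul_zero] at h1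
    exact h1.eventually_le_const (by positivity)
  have E2 : ∀ᶠ L : ℕ in atTop, K * (L : ℝ) ^ (-(ae d * (κ - β))) ≤ 1 := by
    have h1 := ((tendsto_rpow_neg_atTop (show 0 < ae d * (κ - β) from
      mul_pos ha0 (by linarith))).comp hcast).const_mul K
    rw [mul_zero] at h1
    exact h1.eventually_le_const (by norm_num)
  have E3 : ∀ᶠ L : ℕ in atTop, A ^ ((1 : ℝ) / 4) + 1 ≤ Real.sqrt (L : ℝ) := by
    have h1 : Tendsto (fun L : ℕ => Real.sqrt (L : ℝ)) atTop atTop :=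
      Real.tendsto_sqrt_atTop.comp hcast
    exact h1.eventually_ge_atTop _
  have E4 : ∀ᶠ L : ℕ in atTop, 3 ≤ L := eventually_ge_atTop 3
  obtain ⟨L₀, hL₀⟩ := eventually_atTop.1 (E1.and (E2.and (E3.and E4)))
  refine ⟨L₀, fun L _ hL t ht => ?_⟩
  obtain ⟨h1, h2, h3, h4⟩ := hL₀ L hL
  have hL1 : (1 : ℝ) ≤ L := by exact_mod_cast (show 1 ≤ L by omega)
  have hL0 : (0 : ℝ) < L := by linarith
  have ht1 : 1 ≤ t := (Real.one_le_rpow hL1 (by positivity)).trans ht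
  have ht0 : 0 < t := by linarith
  have hst : 0 < Real.sqrt t := Real.sqrt_pos.2 ht0
  refine ⟨ht1, ?_⟩
  have hN := hdist L h4 t ht0
  by_cases hc : A * (L : ℝ) ^ 2 ≤ t
  · refine above ht0 hN hC.le hδ.le ?_
    have h5 : Real.sqrt A * L ≤ Real.sqrt t := by
      have h6 := Real.sqrt_le_sqrt hc
      rwa [Real.sqrt_mul (by linarith), Real.sqrt_sq hL0.le] at h6
    have h6 : 2 * C * d / δ * L ≤ Real.sqrt t :=
      (mul_le_mul_of_nonneg_right hA2 hL0.le).trans h5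
    have h7 : 2 * (C * (d * L) / Real.sqrt t) = (2 * C * d / δ * L) * δ / Real.sqrt t := by
      field_simp
    rw [h7, div_le_iff₀ hst]
    nlinarith
  · push Not at hc
    obtain ⟨p, hp⟩ : ∃ p : ℝ, p = 1 / (2 * ((d : ℝ) + 1)) := ⟨_, rfl⟩
    have hp0 : 0 < p := by rw [hp]; positivity
    have hp4 : p ≤ 1 / 4 := by
      rw [hp]
      exact one_div_le_one_div_of_le (by norm_num) (by linarith)
    have htp1 : 1 ≤ t ^ p := Real.one_le_rpow ht1 hp0.le
    obtain ⟨r, hr⟩ : ∃ r : ℕ, r = ⌈t ^ p⌉₊ := ⟨_, rfl⟩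
    have hr1 : t ^ p ≤ r := by rw [hr]; exact Nat.le_ceil _
    have hr2 : (r : ℝ) < t ^ p + 1 := by rw [hr]; exact Nat.ceil_lt_add_one (by linarith)
    have hr0 : 1 ≤ r := by
      have : (1 : ℝ) ≤ r := htp1.trans hr1
      exact_mod_cast this
    have hrL : r ≤ L := by
      have h5 : t ^ p ≤ A ^ ((1 : ℝ) / 4) * Real.sqrt L := by
        calc t ^ p ≤ t ^ ((1 : ℝ) / 4) := Real.rpow_le_rpow_of_exponent_le ht1 hp4
          _ ≤ (A * (L : ℝ) ^ 2) ^ ((1 : ℝ) / 4) := Real.rpow_le_rpow ht0.le hc.le (by norm_num)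
          _ = A ^ ((1 : ℝ) / 4) * Real.sqrt L := by
              rw [Real.mul_rpow (by linarith) (by positivity), ← Real.rpow_natCast,
                ← Real.rpow_mul hL0.le, Real.sqrt_eq_rpow]
              norm_num
      have h6 : Real.sqrt L * Real.sqrt L = L := Real.mul_self_sqrt hL0.le
      have h7 : 1 ≤ Real.sqrt (L : ℝ) := by
        rw [← Real.sqrt_one]
        exact Real.sqrt_le_sqrt hL1
      have h8 : (r : ℝ) ≤ L := by nlinarith
      exact_mod_cast h8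
    obtain ⟨S, hS, hρ⟩ := box_rho (d := d) (L := L) hr0 hrL
    have hb := hbox t ht1 r (by rw [← hp]; exact hr1) (by rw [← hp]; linarith)
    have hae : (L : ℝ) ^ (ae d) ≤ t := by
      refine le_trans ?_ ht
      exact Real.rpow_le_rpow_of_exponent_le hL1 (by linarith)
    have hη : (d * r) * Real.sqrt (BD.h1 d t) ≤ 1 := by
      refine hb.1.trans (le_trans ?_ h2)
      refine mul_le_mul_of_nonneg_left ?_ hK.le
      have h5 : t ^ (β - κ) ≤ ((L : ℝ) ^ (ae d)) ^ (β - κ) :=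
        Real.rpow_le_rpow_of_nonpos (Real.rpow_pos_of_pos hL0 _) hae (by linarith)
      refine h5.trans (le_of_eq ?_)
      rw [← Real.rpow_mul hL0.le]
      congr 1
      ring
    have hSpos : 0 < S.card := by rw [hS]; exact pow_pos hr0 d
    have hmain := main_ineq h4 hd hd2 ht1 hC.le hN (s := σ ^ 2 * t) (Y := Y) (by positivity) hY0
      S hSpos (d * r) (by positivity) hρ hη
    rw [hS] at hmain
    -- first term
    have e1 : 2 * C / Real.sqrt t * (d * Real.sqrt (5 * (σ ^ 2 * t))) = δ / 3 := by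
      have e2 : Real.sqrt (5 * (σ ^ 2 * t)) = Real.sqrt 5 * σ * Real.sqrt t := by
        rw [Real.sqrt_mul (by norm_num), Real.sqrt_mul (sq_nonneg _), Real.sqrt_sq hσ0.le]
        ring
      rw [e2, hσ]
      field_simp
    have e3 : σ ^ 2 * t / t * Y = σ ^ 2 * Y := by field_simp
    rw [e1, e3] at hmain
    -- third term
    have h5 : (4 / ((r ^ d : ℕ) : ℝ) + 60 * ((d * r) * Real.sqrt (BD.h1 d t))) * (1 + Y) ^ 2 *
        ((L : ℝ) ^ 2 / (16 * t) * (3 + 2 * Real.log L) ^ d) ≤ δ / 3 := by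
      have h6 : 3 + 2 * Real.log L ≤ (3 + 2 / β) * (L : ℝ) ^ β := by
        have h7 := Real.log_le_rpow_div hL0.le hβ0
        have h8 : 1 ≤ (L : ℝ) ^ β := Real.one_le_rpow hL1 hβ0.le
        have e4 : (L : ℝ) ^ β / β = 1 / β * (L : ℝ) ^ β := by ring
        have e5 : 2 / β = 2 * (1 / β) := by ring
        rw [e4] at h7
        rw [e5]
        nlinarith
      have h60 : 0 ≤ 3 + 2 * Real.log L := by
        have := Real.log_nonneg hL1
        linarith
      have h7 : (3 + 2 * Real.log L) ^ d ≤ (3 + 2 / β) ^ d * (L : ℝ) ^ (β * d) := by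
        refine (pow_le_pow_left₀ h60 h6 d).trans (le_of_eq ?_)
        rw [mul_pow, ← Real.rpow_natCast ((L : ℝ) ^ β), ← Real.rpow_mul hL0.le]
      have h8 : t ^ (β - κ - 1) ≤ (L : ℝ) ^ ((ae d + ε) * (β - κ - 1)) := by
        have h9 : t ^ (β - κ - 1) ≤ ((L : ℝ) ^ (ae d + ε)) ^ (β - κ - 1) :=
          Real.rpow_le_rpow_of_nonpos (Real.rpow_pos_of_pos hL0 _) ht (by linarith)
        rwa [← Real.rpow_mul hL0.le] at h9
      have h9 : (L : ℝ) ^ ((ae d + ε) * (β - κ - 1)) * ((L : ℝ) ^ (2 : ℝ) * (L : ℝ) ^ (β * d)) ≤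
          (L : ℝ) ^ (-(ε * (κ + 1) / 2)) := by
        rw [← Real.rpow_add hL0, ← Real.rpow_add hL0]
        refine Real.rpow_le_rpow_of_exponent_le hL1 ?_
        nlinarith
      have hL2 : (L : ℝ) ^ (2 : ℝ) = (L : ℝ) ^ 2 := by
        rw [← Real.rpow_natCast]; norm_num
      calc (4 / ((r ^ d : ℕ) : ℝ) + 60 * ((d * r) * Real.sqrt (BD.h1 d t))) * (1 + Y) ^ 2 *
            ((L : ℝ) ^ 2 / (16 * t) * (3 + 2 * Real.log L) ^ d)
          ≤ (K * t ^ (β - κ)) * (1 + Y) ^ 2 *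
            ((L : ℝ) ^ 2 / (16 * t) * ((3 + 2 / β) ^ d * (L : ℝ) ^ (β * d))) := by
            refine mul_le_mul (mul_le_mul_of_nonneg_right hb.2 (by positivity)) ?_
              (by positivity) (by positivity)
            exact mul_le_mul_of_nonneg_left h7 (by positivity)
        _ = K2 * (t ^ (β - κ - 1) * ((L : ℝ) ^ (2 : ℝ) * (L : ℝ) ^ (β * d))) := by
            rw [hL2, hK2, Real.rpow_sub_one ht0.ne']
            field_simp
        _ ≤ K2 * ((L : ℝ) ^ ((ae d + ε) * (β - κ - 1)) *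
              ((L : ℝ) ^ (2 : ℝ) * (L : ℝ) ^ (β * d))) := by
            refine mul_le_mul_of_nonneg_left ?_ hK20.le
            exact mul_le_mul_of_nonneg_right h8 (by positivity)
        _ ≤ K2 * (L : ℝ) ^ (-(ε * (κ + 1) / 2)) := mul_le_mul_of_nonneg_left h9 hK20.le
        _ ≤ δ / 3 := h1
    linarith

end Pool.Agent.Q295.BD
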