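import Pool.Agent.Y998.ST.Torus

/-!
# Eigenfunctions of the rates under random stirring: means and negative correlation
-/

set_option autoImplicit false

namespace Pool.Agent.Q295.BD

open Finset Equiv
open Pool.Agent.Y998.ST

variable {V : Type} [Fintype V] [DecidableEq V]

theorem exp_zero' (J : V → V → ℝ) (F : Perm V → ℝ) : stirExp J 0 F = F 1 := by
  unfold stirExp
  simp only [law_zero, ite_mul, one_mul, zero_mul]
  rw [Finset.sum_ite_eq']
  simp

/-- Kolmogorov's equation with the generator inside -/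
theorem exp_deriv' (J : V → V → ℝ) (t : ℝ) (F : Perm V → ℝ) :
    HasDerivAt (fun u => stirExp J u F)
      (stirExp J t (fun g => ∑ a, ∑ b, J a b / 2 * (F (swap a b * g) - F g))) t := by
  refine (exp_deriv J t F).congr_deriv ?_
  unfold stirExp
  simp only [← Finset.sum_sub_distrib, Finset.mul_sum]
  have h1 : ∀ a, ∑ b : V, ∑ g : Perm V, J a b / 2 *
      (stirLaw J t g * F (swap a b * g) - stirLaw J t g * F g) =
      ∑ g : Perm V, ∑ b : V, J a b / 2 *
      (stirLaw J t g * F (swap a b * g) - stirLaw J t g * F g) := fun a => Finset.sum_comm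
  simp only [h1]
  rw [Finset.sum_comm]
  refine Finset.sum_congr rfl fun g _ => ?_
  refine Finset.sum_congr rfl fun a _ => ?_
  refine Finset.sum_congr rfl fun b _ => ?_
  ring

/-- `e` is an eigenfunction of the generator of one particle -/
def Eig (J : V → V → ℝ) (e : V → ℝ) (Λ : ℝ) : Prop := ∀ b, ∑ x, e x * GG J x b = -Λ * e b

theorem eig_one {J : V → V → ℝ} (hs : ∀ x y, J x y = J y x) (h0 : ∀ x, J x x = 0)
    {e : V → ℝ} {Λ : ℝ} (he : Eig J e Λ) (t : ℝ) (x : V) :
    stirExp J t (fun g => e (g x)) = Real.exp (-(t * Λ)) * e x := by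
  obtain ⟨u, hu⟩ : ∃ u : ℝ → ℝ, u = fun s => stirExp J s (fun g => e (g x)) := ⟨_, rfl⟩
  have hd : ∀ s, HasDerivAt u (-Λ * u s) s := by
    intro s
    rw [hu]
    refine (exp_deriv' J s _).congr_deriv ?_
    have h1 : ∀ g : Perm V, ∑ a, ∑ b, J a b / 2 * (e ((swap a b * g) x) - e (g x)) =
        -Λ * e (g x) := by
      intro g
      rw [← he (g x), ← gen_one hs h0 e (g x)]
      rfl
    simp only [h1]
    unfold stirExp
    rw [Finset.mul_sum]
    exact Finset.sum_congr rfl fun g _ => by ring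
  have hd2 : ∀ s, HasDerivAt (fun s => Real.exp (s * Λ) * u s) 0 s := by
    intro s
    have h1 : HasDerivAt (fun s : ℝ => Real.exp (s * Λ)) (Real.exp (s * Λ) * (1 * Λ)) s :=
      ((hasDerivAt_id' s).mul_const Λ).exp
    refine (h1.mul (hd s)).congr_deriv ?_
    ring
  have hc := is_const_of_deriv_eq_zero (fun s => (hd2 s).differentiableAt) (fun s => (hd2 s).deriv)
  have h2 := hc t 0
  have h3 : u 0 = e x := by
    rw [hu]
    beta_reduce
    rw [exp_zero']
    rfl
  rw [h3, zero_mul, Real.exp_zero, one_mul] at h2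
  have h4 : stirExp J t (fun g => e (g x)) = u t := by rw [hu]
  rw [h4, ← h2, ← mul_assoc, ← Real.exp_add]
  have h5 : -(t * Λ) + t * Λ = 0 := by ring
  rw [h5, Real.exp_zero, one_mul]

theorem both_moved {a b X X' : V} (hX : X ≠ X') (e : V → ℝ) :
    (e (swap a b X) - e X) * (e (swap a b X') - e X') ≤ 0 := by
  by_cases h1 : swap a b X = X
  · rw [h1, sub_self, zero_mul]
  · by_cases h2 : swap a b X' = X'
    · rw [h2, sub_self, mul_zero]
    · have h3 := (Equiv.swap_apply_ne_self_iff.1 h1).2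
      have h4 := (Equiv.swap_apply_ne_self_iff.1 h2).2
      have h5 : swap a b X = X' ∧ swap a b X' = X := by
        rcases h3 with rfl | rfl
        · rcases h4 with rfl | rfl
          · exact absurd rfl hX
          · exact ⟨swap_apply_left _ _, swap_apply_right _ _⟩
        · rcases h4 with rfl | rfl
          · exact ⟨swap_apply_right _ _, swap_apply_left _ _⟩
          · exact absurd rfl hX
      rw [h5.1, h5.2]
      nlinarith [sq_nonneg (e X - e X')]

/-- negative correlation -/
theorem eig_two {J : V → V → ℝ} (hJ : ∀ x y, 0 ≤ J x y) (hs : ∀ x y, J x y = J y x)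
    (h0 : ∀ x, J x x = 0) {e : V → ℝ} {Λ : ℝ} (he : Eig J e Λ) {t : ℝ} (ht : 0 ≤ t) {x x' : V}
    (hx : x ≠ x') : stirExp J t (fun g => e (g x) * e (g x')) ≤
      Real.exp (-(t * Λ)) ^ 2 * (e x * e x') := by
  obtain ⟨u, hu⟩ : ∃ u : ℝ → ℝ, u = fun s => stirExp J s (fun g => e (g x) * e (g x')) :=
    ⟨_, rfl⟩
  obtain ⟨w, hw⟩ : ∃ w : ℝ → ℝ, w = fun s => stirExp J s (fun g => ∑ a, ∑ b, J a b / 2 *
    ((e (swap a b (g x)) - e (g x)) * (e (swap a b (g x')) - e (g x')))) := ⟨_, rfl⟩
  have hwn : ∀ s, 0 ≤ s → w s ≤ 0 := by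
    intro s hs'
    rw [hw]
    beta_reduce
    have h1 := exp_mono hJ hs' (F := fun g => ∑ a, ∑ b, J a b / 2 *
      ((e (swap a b (g x)) - e (g x)) * (e (swap a b (g x')) - e (g x')))) (G := fun _ => 0)
      (fun g => Finset.sum_nonpos fun a _ => Finset.sum_nonpos fun b _ =>
        mul_nonpos_of_nonneg_of_nonpos (by linarith [hJ a b])
          (both_moved (fun h => hx (g.injective h)) e))
    rwa [exp_const] at h1
  have hd : ∀ s, HasDerivAt u (-(2 * Λ) * u s + w s) s := by
    intro s
    rw [hu, hw]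
    refine (exp_deriv' J s _).congr_deriv ?_
    have h1 : ∀ g : Perm V, ∑ a, ∑ b, J a b / 2 * (e ((swap a b * g) x) * e ((swap a b * g) x') -
        e (g x) * e (g x')) = -(2 * Λ) * (e (g x) * e (g x')) + ∑ a, ∑ b, J a b / 2 *
      ((e (swap a b (g x)) - e (g x)) * (e (swap a b (g x')) - e (g x'))) := by
      intro g
      have h2 := gen_one hs h0 e (g x)
      have h3 := gen_one hs h0 e (g x')
      rw [he (g x)] at h2
      rw [he (g x')] at h3
      have h4 : ∀ a b, J a b / 2 * (e ((swap a b * g) x) * e ((swap a b * g) x') -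
          e (g x) * e (g x')) = (J a b / 2 * (e (swap a b (g x)) - e (g x))) * e (g x') +
          (J a b / 2 * (e (swap a b (g x')) - e (g x'))) * e (g x) + J a b / 2 *
          ((e (swap a b (g x)) - e (g x)) * (e (swap a b (g x')) - e (g x'))) := by
        intro a b
        rw [Perm.mul_apply, Perm.mul_apply]
        ring
      simp only [h4, Finset.sum_add_distrib, ← Finset.sum_mul]
      rw [h2, h3]
      ring
    simp only [h1]
    unfold stirExp
    rw [Finset.mul_sum, ← Finset.sum_add_distrib]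
    exact Finset.sum_congr rfl fun g _ => by ring
  have hd2 : ∀ s, HasDerivAt (fun s => Real.exp (s * (2 * Λ)) * u s)
      (Real.exp (s * (2 * Λ)) * w s) s := by
    intro s
    have h1 : HasDerivAt (fun s : ℝ => Real.exp (s * (2 * Λ)))
        (Real.exp (s * (2 * Λ)) * (1 * (2 * Λ))) s :=
      ((hasDerivAt_id' s).mul_const (2 * Λ)).exp
    refine (h1.mul (hd s)).congr_deriv ?_
    ring
  have hanti : AntitoneOn (fun s => Real.exp (s * (2 * Λ)) * u s) (Set.Ici 0) := by
    refine antitoneOn_of_deriv_nonpos (convex_Ici 0)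
      (fun s _ => (hd2 s).continuousAt.continuousWithinAt)
      (fun s _ => (hd2 s).differentiableAt.differentiableWithinAt) (fun s hs' => ?_)
    rw [interior_Ici, Set.mem_Ioi] at hs'
    rw [(hd2 s).deriv]
    exact mul_nonpos_of_nonneg_of_nonpos (Real.exp_pos _).le (hwn s hs'.le)
  have h2 := hanti (Set.mem_Ici.2 le_rfl) (Set.mem_Ici.2 ht) ht
  have h3 : u 0 = e x * e x' := by
    rw [hu]
    beta_reduce
    rw [exp_zero']
    rfl
  beta_reduce at h2
  rw [h3, zero_mul, Real.exp_zero, one_mul] at h2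
  have h4 : stirExp J t (fun g => e (g x) * e (g x')) = u t := by rw [hu]
  have h5 : Real.exp (-(t * Λ)) ^ 2 * (Real.exp (t * (2 * Λ)) * u t) = u t := by
    rw [← mul_assoc, ← Real.exp_nat_mul, ← Real.exp_add]
    have : (2 : ℕ) * (-(t * Λ)) + t * (2 * Λ) = 0 := by push_cast; ring
    rw [this, Real.exp_zero, one_mul]
  rw [h4, ← h5]
  exact mul_le_mul_of_nonneg_left h2 (sq_nonneg _)

end Pool.Agent.Q295.BD
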