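import Pool.Agent.Q295.BD.Quad

/-!
# Characters of the torus
-/

set_option autoImplicit false
set_option linter.unusedSectionVars false

namespace Pool.Agent.Q295.BD

open Finset Equiv
open Pool.Agent.Y998.ST
open Pool.Agent.Y661.PD (hel)
open Pool.Agent.Y998.LP (tdist)
open Pool.Agent.Q295.TP (sm sm_nonneg sm_le_one)

section chars

variable {d L : ℕ} [NeZero L]

/-- character -/
noncomputable def th (k x : Fin d → ZMod L) : ℂ := ZMod.stdAddChar (∑ i, k i * x i)

/-- real part -/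
noncomputable def cc (k x : Fin d → ZMod L) : ℝ := (th k x).re

/-- imaginary part -/
noncomputable def ss (k x : Fin d → ZMod L) : ℝ := (th k x).im

/-- eigenvalue -/
noncomputable def Lk (k : Fin d → ZMod L) : ℝ := ∑ i, lam (k i)

theorem Lk_nonneg (k : Fin d → ZMod L) : 0 ≤ Lk k := Finset.sum_nonneg fun i _ => lam_nonneg _

theorem th_norm (k x : Fin d → ZMod L) : ‖th k x‖ = 1 := AddChar.norm_apply _ _

theorem cs_sq (k x : Fin d → ZMod L) : cc k x ^ 2 + ss k x ^ 2 = 1 := by
  have h := th_norm k x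
  rw [← sq_eq_sq₀ (norm_nonneg _) (by norm_num), ← Complex.normSq_eq_norm_sq,
    Complex.normSq_apply] at h
  unfold cc ss
  linarith

theorem lin_update (k b : Fin d → ZMod L) (a : Fin d) (c : ZMod L) :
    ∑ i, k i * Function.update b a (b a + c) i = ∑ i, k i * b i + k a * c := by
  have h : ∀ i, k i * Function.update b a (b a + c) i =
      k i * b i + if i = a then k a * c else 0 := by
    intro i
    by_cases hi : i = a
    · subst hi; rw [Function.update_self, if_pos rfl]; ring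
    · rw [Function.update_of_ne hi, if_neg hi, add_zero]
  simp only [h, Finset.sum_add_distrib, Finset.sum_ite_eq', Finset.mem_univ, if_true]

theorem th_two (k b : Fin d → ZMod L) (a : Fin d) :
    th k (Function.update b a (b a + 1)) + th k (Function.update b a (b a - 1)) =
      ((2 * rc (k a) : ℝ) : ℂ) * th k b := by
  unfold th
  rw [sub_eq_add_neg, lin_update, lin_update, AddChar.map_add_eq_mul, AddChar.map_add_eq_mul,
    mul_one, mul_neg, mul_one, rc_neg, ← mul_add, Complex.add_conj]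
  unfold rc
  ring

theorem gg_apply (hL : 3 ≤ L) (e : (Fin d → ZMod L) → ℝ) (b : Fin d → ZMod L) :
    ∑ x, e x * GG (nnRate d L) x b = ∑ a, (e (Function.update b a (b a + 1)) +
      e (Function.update b a (b a - 1)) - 2 * e b) := by
  have h2 : ∀ x : Fin d → ZMod L, e x * GG (nnRate d L) x b =
      e x * nnRate d L x b - (if x = b then e x * (2 * d) else 0) := by
    intro x
    unfold GG
    by_cases hx : x = b
    · subst hx
      rw [if_pos rfl, if_pos rfl, nn_row hL, nn_diag hL]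
      ring
    · rw [if_neg hx, if_neg hx, sub_zero]
  rw [Finset.sum_congr rfl fun x _ => h2 x, Finset.sum_sub_distrib, nn_sum hL,
    Finset.sum_ite_eq', if_pos (Finset.mem_univ _)]
  rw [Finset.sum_sub_distrib, Finset.sum_const (2 * e b), Finset.card_univ, Fintype.card_fin,
    nsmul_eq_mul]
  ring

theorem eig_cc (hL : 3 ≤ L) (k : Fin d → ZMod L) : Eig (nnRate d L) (cc k) (Lk k) := by
  intro b
  rw [gg_apply hL]
  have h1 : ∀ a, cc k (Function.update b a (b a + 1)) + cc k (Function.update b a (b a - 1)) -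
      2 * cc k b = -lam (k a) * cc k b := by
    intro a
    unfold cc
    rw [← Complex.add_re, th_two, Complex.re_ofReal_mul]
    unfold lam
    ring
  simp only [h1, ← Finset.sum_mul, Finset.sum_neg_distrib]
  rfl

theorem eig_ss (hL : 3 ≤ L) (k : Fin d → ZMod L) : Eig (nnRate d L) (ss k) (Lk k) := by
  intro b
  rw [gg_apply hL]
  have h1 : ∀ a, ss k (Function.update b a (b a + 1)) + ss k (Function.update b a (b a - 1)) -
      2 * ss k b = -lam (k a) * ss k b := by
    intro a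
    unfold ss
    rw [← Complex.add_im, th_two, Complex.im_ofReal_mul]
    unfold lam
    ring
  simp only [h1, ← Finset.sum_mul, Finset.sum_neg_distrib]
  rfl

/-- cosine of the displacement -/
noncomputable def co (k x y : Fin d → ZMod L) : ℝ := cc k y * cc k x + ss k y * ss k x

theorem co_eq (k x y : Fin d → ZMod L) : co k x y = cc k (y - x) := by
  unfold co cc ss th
  have h1 : ∑ i, k i * (y - x) i = ∑ i, k i * y i + -∑ i, k i * x i := by
    rw [← sub_eq_add_neg, ← Finset.sum_sub_distrib]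
    refine Finset.sum_congr rfl fun i _ => ?_
    rw [Pi.sub_apply]
    ring
  rw [h1, AddChar.map_add_eq_mul, rc_neg, Complex.mul_re, Complex.conj_re, Complex.conj_im]
  ring

theorem exp_co (hL : 3 ≤ L) (t : ℝ) (k x : Fin d → ZMod L) :
    stirExp (nnRate d L) t (fun g => co k x (g x)) = Real.exp (-(t * Lk k)) := by
  have h1 := eig_one nn_symm (nn_diag hL) (eig_cc hL k) t x
  have h2 := eig_one nn_symm (nn_diag hL) (eig_ss hL k) t x
  have e1 : (fun g : Perm (Fin d → ZMod L) => co k x (g x)) =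
      fun g => cc k x * cc k (g x) + ss k x * ss k (g x) := by
    funext g
    unfold co
    ring
  rw [e1, e_add, e_mul, e_mul, h1, h2]
  have h3 := cs_sq k x
  linear_combination Real.exp (-(t * Lk k)) * h3

theorem co_double (k x y : Fin d → ZMod L) :
    co (fun i => 2 * k i) x y = 2 * co k x y ^ 2 - 1 := by
  rw [co_eq, co_eq]
  have h1 : th (fun i => 2 * k i) (y - x) = th k (y - x) ^ 2 := by
    unfold th
    have e1 : ∑ i, 2 * k i * (y - x) i = ∑ i, k i * (y - x) i + ∑ i, k i * (y - x) i := by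
      rw [← Finset.sum_add_distrib]
      exact Finset.sum_congr rfl fun i _ => by ring
    rw [e1, AddChar.map_add_eq_mul, sq]
  have h2 := cs_sq k (y - x)
  unfold cc ss at h2
  unfold cc
  rw [h1, sq, Complex.mul_re]
  nlinarith

theorem lam_double (a : ZMod L) : lam (2 * a) = lam a * (4 - lam a) := by
  have h1 : (ZMod.stdAddChar (2 * a) : ℂ) = ZMod.stdAddChar a ^ 2 := by
    rw [two_mul, AddChar.map_add_eq_mul, sq]
  have h2 : ‖(ZMod.stdAddChar a : ℂ)‖ = 1 := AddChar.norm_apply _ _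
  rw [← sq_eq_sq₀ (norm_nonneg _) (by norm_num), ← Complex.normSq_eq_norm_sq,
    Complex.normSq_apply] at h2
  unfold lam rc
  rw [h1, sq, Complex.mul_re]
  nlinarith

theorem Lk_double (k : Fin d → ZMod L) : 4 * Lk k - Lk k ^ 2 ≤ Lk (fun i => 2 * k i) := by
  have h1 : Lk (fun i => 2 * k i) = 4 * Lk k - ∑ i, lam (k i) ^ 2 := by
    unfold Lk
    simp only [lam_double]
    rw [Finset.mul_sum, ← Finset.sum_sub_distrib]
    exact Finset.sum_congr rfl fun i _ => by ring
  have h2 : ∑ i, lam (k i) ^ 2 ≤ Lk k ^ 2 := by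
    unfold Lk
    exact Finset.sum_sq_le_sq_sum_of_nonneg fun i _ => lam_nonneg _
  linarith

theorem real_ineq {y y2 : ℝ} (hy : 0 ≤ y) (h : 4 * y - y ^ 2 ≤ y2) (h2 : 0 ≤ y2) :
    3 / 2 - 2 * Real.exp (-y) + Real.exp (-y2) / 2 ≤ 5 * y ^ 2 := by
  by_cases hc : 2 / 5 ≤ y
  · have h3 := Real.add_one_le_exp (-y)
    have h4 : Real.exp (-y2) ≤ 1 := Real.exp_le_one_iff.2 (by linarith)
    nlinarith
  · push Not at hc
    have h3 := Real.exp_bound (x := -y) (by rw [abs_neg, abs_of_nonneg hy]; linarith)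
      (n := 3) (by norm_num)
    rw [abs_neg, abs_of_nonneg hy] at h3
    have h4 := (abs_le.1 h3).1
    simp only [Finset.sum_range_succ, Finset.sum_range_zero, Nat.factorial] at h4
    norm_num at h4
    obtain ⟨z, hz⟩ : ∃ z, z = 4 * y - y ^ 2 := ⟨_, rfl⟩
    have hz0 : 0 ≤ z := by rw [hz]; nlinarith
    have h5 : Real.exp (-y2) ≤ 1 - z + z ^ 2 / 2 := by
      have h6 : Real.exp (-y2) ≤ Real.exp (-z) := Real.exp_le_exp.2 (by rw [hz]; linarith)
      refine h6.trans ?_
      have h7 := Real.quadratic_le_exp_of_nonneg hz0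
      have h8 : Real.exp (-z) * Real.exp z = 1 := by rw [← Real.exp_add]; simp
      have h9 := Real.exp_pos (-z)
      have h10 : Real.exp (-z) * (1 + z + z ^ 2 / 2) ≤ 1 :=
        (mul_le_mul_of_nonneg_left h7 h9.le).trans h8.le
      have h11 : 1 ≤ (1 - z + z ^ 2 / 2) * (1 + z + z ^ 2 / 2) := by nlinarith [sq_nonneg (z ^ 2)]
      have h12 : 0 < 1 + z + z ^ 2 / 2 := by positivity
      exact le_of_mul_le_mul_right (h10.trans h11) h12
    rw [hz] at h5
    have h6 : y ^ 3 ≤ 2 / 5 * y ^ 2 := by nlinarith [sq_nonneg y]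
    have h7 : 0 ≤ y ^ 3 := by positivity
    have h8 : (4 * y - y ^ 2) ^ 2 = 16 * y ^ 2 - 8 * y ^ 3 + y * y ^ 3 := by ring
    have h9 : y * y ^ 3 ≤ 2 / 5 * y ^ 3 := by nlinarith
    nlinarith

theorem nz_eq (k : Fin d → ZMod L) (t : ℝ) (g : Perm (Fin d → ZMod L)) (x : Fin d → ZMod L) :
    nv (cc k) (Lk k) t g x ^ 2 + nv (ss k) (Lk k) t g x ^ 2 =
      1 - 2 * Real.exp (-(t * Lk k)) * co k x (g x) + Real.exp (-(t * Lk k)) ^ 2 := by
  have h1 := cs_sq k x
  have h2 := cs_sq k (g x)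
  unfold nv co
  linear_combination h2 + Real.exp (-(t * Lk k)) ^ 2 * h1

theorem nz_mean (hL : 3 ≤ L) (t : ℝ) (k x : Fin d → ZMod L) :
    stirExp (nnRate d L) t (fun g => nv (cc k) (Lk k) t g x ^ 2 + nv (ss k) (Lk k) t g x ^ 2) =
      1 - Real.exp (-(t * Lk k)) ^ 2 := by
  have e1 : (fun g : Perm (Fin d → ZMod L) => nv (cc k) (Lk k) t g x ^ 2 +
      nv (ss k) (Lk k) t g x ^ 2) = fun g => (1 + Real.exp (-(t * Lk k)) ^ 2) +
        (-(2 * Real.exp (-(t * Lk k)))) * co k x (g x) := by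
    funext g
    rw [nz_eq]
    ring
  rw [e1, e_add, exp_const, e_mul, exp_co hL]
  ring

theorem nz_le (hL : 3 ≤ L) {t : ℝ} (ht : 0 ≤ t) (k x : Fin d → ZMod L) :
    stirExp (nnRate d L) t (fun g => nv (cc k) (Lk k) t g x ^ 2 + nv (ss k) (Lk k) t g x ^ 2) ≤
      2 * (t * Lk k) := by
  rw [nz_mean hL]
  have h1 := Real.add_one_le_exp (-(2 * (t * Lk k)))
  have h2 : Real.exp (-(t * Lk k)) ^ 2 = Real.exp (-(2 * (t * Lk k))) := by
    rw [← Real.exp_nat_mul]
    congr 1
    push_cast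
    ring
  rw [h2]
  linarith

theorem nz_four (hL : 3 ≤ L) {t : ℝ} (ht : 1 ≤ t) (k x : Fin d → ZMod L) :
    stirExp (nnRate d L) t (fun g => (nv (cc k) (Lk k) t g x ^ 2 +
      nv (ss k) (Lk k) t g x ^ 2) ^ 2) ≤ 42 * (t * Lk k) ^ 2 := by
  obtain ⟨y, hy⟩ : ∃ y, y = t * Lk k := ⟨_, rfl⟩
  obtain ⟨c, hc⟩ : ∃ c, c = Real.exp (-y) := ⟨_, rfl⟩
  have hΛ := Lk_nonneg k
  have hy0 : 0 ≤ y := by rw [hy]; positivity
  have hc0 : 0 ≤ c := by rw [hc]; exact (Real.exp_pos _).le
  have hc1 : c ≤ 1 := by rw [hc]; exact Real.exp_le_one_iff.2 (by linarith)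
  have hcy : 1 - c ≤ y := by
    have := Real.add_one_le_exp (-y)
    rw [hc]; linarith
  have hm1 : stirExp (nnRate d L) t (fun g => (1 - co k x (g x)) ^ 2) ≤ 5 * y ^ 2 := by
    have e1 : (fun g : Perm (Fin d → ZMod L) => (1 - co k x (g x)) ^ 2) = fun g =>
        3 / 2 + ((-2) * co k x (g x) + (1 / 2) * co (fun i => 2 * k i) x (g x)) := by
      funext g
      rw [co_double]
      ring
    rw [e1, e_add, e_add, exp_const, e_mul, e_mul, exp_co hL, exp_co hL, ← hy]
    have h2 : 4 * y - y ^ 2 ≤ t * Lk (fun i => 2 * k i) := by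
      have h3 := mul_le_mul_of_nonneg_left (Lk_double k) (show (0 : ℝ) ≤ t by linarith)
      have h4 : t * Lk k ^ 2 ≤ t * (t * Lk k ^ 2) :=
        le_mul_of_one_le_left (by positivity) ht
      rw [hy]
      nlinarith
    have h3 := real_ineq hy0 h2 (mul_nonneg (by linarith) (Lk_nonneg _))
    linarith
  have h4 : stirExp (nnRate d L) t (fun g => (nv (cc k) (Lk k) t g x ^ 2 +
      nv (ss k) (Lk k) t g x ^ 2) ^ 2) ≤ stirExp (nnRate d L) t (fun g => 2 * (1 - c) ^ 4 +
        8 * (1 - co k x (g x)) ^ 2) := by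
    refine exp_mono nn_nonneg (by linarith) fun g => ?_
    rw [nz_eq, ← hy, ← hc]
    obtain ⟨C, hC⟩ : ∃ C, C = co k x (g x) := ⟨_, rfl⟩
    rw [← hC]
    have e2 : 1 - 2 * c * C + c ^ 2 = (1 - c) ^ 2 + 2 * c * (1 - C) := by ring
    rw [e2]
    have h5 : ((1 - c) ^ 2 + 2 * c * (1 - C)) ^ 2 ≤ 2 * ((1 - c) ^ 2) ^ 2 +
        2 * (2 * c * (1 - C)) ^ 2 := by
      nlinarith [sq_nonneg ((1 - c) ^ 2 - 2 * c * (1 - C))]
    have h6 : c ^ 2 ≤ 1 := by nlinarith
    have h7 : c ^ 2 * (1 - C) ^ 2 ≤ (1 - C) ^ 2 := by nlinarith [sq_nonneg (1 - C)]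
    nlinarith
  refine h4.trans ?_
  rw [e_add, exp_const, e_mul, ← hy]
  have h5 : (1 - c) ^ 4 ≤ y ^ 2 := by
    have h6 : (1 - c) ^ 2 ≤ y ^ 2 := pow_le_pow_left₀ (by linarith) hcy 2
    have h7 : (1 - c) ^ 2 ≤ 1 := by nlinarith
    nlinarith [sq_nonneg (1 - c)]
  linarith

/-- distance of a character from one -/
noncomputable def fz (a : ZMod L) : ℝ := ‖(ZMod.stdAddChar a : ℂ) - 1‖

theorem fz_add (a b : ZMod L) : fz (a + b) ≤ fz a + fz b := by
  unfold fz
  have h1 : (ZMod.stdAddChar (a + b) : ℂ) - 1 = ZMod.stdAddChar a * (ZMod.stdAddChar b - 1) +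
      (ZMod.stdAddChar a - 1) := by
    rw [AddChar.map_add_eq_mul]
    ring
  rw [h1]
  refine (norm_add_le _ _).trans ?_
  rw [norm_mul, AddChar.norm_apply, one_mul, add_comm]

theorem fz_zero : fz (0 : ZMod L) = 0 := by
  unfold fz
  rw [AddChar.map_zero_eq_one, sub_self, norm_zero]

theorem fz_neg (a : ZMod L) : fz (-a) = fz a := by
  unfold fz
  have h1 : (ZMod.stdAddChar (-a) : ℂ) - 1 = (starRingEnd ℂ) (ZMod.stdAddChar a - 1) := by
    rw [rc_neg, map_sub, map_one]
  rw [h1, Complex.norm_conj]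

theorem fz_nat (a : ZMod L) (n : ℕ) : fz (a * (n : ZMod L)) ≤ n * fz a := by
  induction n with
  | zero => rw [Nat.cast_zero, mul_zero, fz_zero, Nat.cast_zero, zero_mul]
  | succ n ih =>
    push_cast
    rw [mul_add, mul_one]
    refine (fz_add _ _).trans ?_
    linarith

theorem fz_int (a : ZMod L) (n : ℤ) : fz (a * (n : ZMod L)) ≤ n.natAbs * fz a := by
  rcases Int.natAbs_eq n with h | h
  · have h1 : ((n : ℤ) : ZMod L) = ((n.natAbs : ℕ) : ZMod L) := by
      conv_lhs => rw [h]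
      exact Int.cast_natCast _
    rw [h1]
    exact fz_nat a _
  · have h1 : ((n : ℤ) : ZMod L) = -((n.natAbs : ℕ) : ZMod L) := by
      conv_lhs => rw [h]
      rw [Int.cast_neg, Int.cast_natCast]
    rw [h1, mul_neg, fz_neg]
    exact fz_nat a _

theorem fz_sq (a : ZMod L) : fz a ^ 2 = lam a := by
  unfold fz lam rc
  have h2 : ‖(ZMod.stdAddChar a : ℂ)‖ = 1 := AddChar.norm_apply _ _
  rw [← sq_eq_sq₀ (norm_nonneg _) (by norm_num), ← Complex.normSq_eq_norm_sq,
    Complex.normSq_apply] at h2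
  rw [← Complex.normSq_eq_norm_sq, Complex.normSq_apply, Complex.sub_re, Complex.sub_im,
    Complex.one_re, Complex.one_im]
  nlinarith

theorem fz_sum {ι : Type} (s : Finset ι) (f : ι → ZMod L) : fz (∑ i ∈ s, f i) ≤ ∑ i ∈ s, fz (f i) := by
  classical
  induction s using Finset.induction_on with
  | empty => rw [Finset.sum_empty, Finset.sum_empty, fz_zero]
  | insert a s ha ih =>
    rw [Finset.sum_insert ha, Finset.sum_insert ha]
    exact (fz_add _ _).trans (by linarith)

theorem th_close (k x y : Fin d → ZMod L) : ‖th k x - th k y‖ ≤ tdist x y * Real.sqrt (Lk k) := by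
  have h1 : th k x - th k y = th k y * ((ZMod.stdAddChar (∑ i, k i * (x i - y i)) : ℂ) - 1) := by
    unfold th
    have e1 : ∑ i, k i * x i = ∑ i, k i * y i + ∑ i, k i * (x i - y i) := by
      rw [← Finset.sum_add_distrib]
      exact Finset.sum_congr rfl fun i _ => by ring
    rw [e1, AddChar.map_add_eq_mul]
    ring
  rw [h1, norm_mul, th_norm, one_mul]
  have h2 := fz_sum (Finset.univ : Finset (Fin d)) (fun i => k i * (x i - y i))
  refine h2.trans ?_
  unfold tdist
  push_cast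
  rw [Finset.sum_mul]
  refine Finset.sum_le_sum fun i _ => ?_
  have h3 := fz_int (k i) (x i - y i).valMinAbs
  rw [ZMod.coe_valMinAbs] at h3
  refine h3.trans (mul_le_mul_of_nonneg_left ?_ (by positivity))
  have h4 : 0 ≤ fz (k i) := norm_nonneg _
  rw [← Real.sqrt_sq h4, fz_sq]
  exact Real.sqrt_le_sqrt (Finset.single_le_sum (f := fun i => lam (k i))
    (fun i _ => lam_nonneg _) (Finset.mem_univ i))

theorem cc_close (k x y : Fin d → ZMod L) : |cc k x - cc k y| ≤ tdist x y * Real.sqrt (Lk k) := by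
  refine le_trans ?_ (th_close k x y)
  unfold cc
  rw [← Complex.sub_re]
  exact Complex.abs_re_le_norm _

theorem ss_close (k x y : Fin d → ZMod L) : |ss k x - ss k y| ≤ tdist x y * Real.sqrt (Lk k) := by
  refine le_trans ?_ (th_close k x y)
  unfold ss
  rw [← Complex.sub_im]
  exact Complex.abs_im_le_norm _

end chars

end Pool.Agent.Q295.BD
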