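import Pool.Agent.Y655.PD.HM
import Pool.Agent.Y50.PD.CONV
import Pool.Agent.Y419.PD.PRD
import Pool.Agent.Y419.PD.ENT
import Pool.Agent.Y761.PD.DISP
import Pool.Agent.Y41.PD.SUB
import Pool.Agent.Y657.PD.TRI
import Pool.Agent.Y908.PD.EDGE
import Pool.Agent.Y998.LQ.Final

/-!
# The Hellinger distance of the stirring law and its translates by transpositions
-/

set_option autoImplicit false

namespace Pool.Agent.Q295.BD

open Finset Equiv
open Pool.Agent.Y998.ST
open Pool.Agent.Y661.PD (hel S_ENT S_SUB S_TRI)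
open Pool.Agent.Y998.LP (tdist law_inv)

theorem t_ENT : S_ENT :=
  Pool.Agent.Y419.PD.ENT.main (Pool.Agent.Y655.PD.HM.main Pool.Agent.Y50.PD.CONV.main)
    Pool.Agent.Y419.PD.PRD.main

theorem t_SUB : S_SUB := Pool.Agent.Y41.PD.SUB.main Pool.Agent.Y761.PD.DISP.main

section gen

variable {V : Type} [Fintype V] [DecidableEq V]

theorem hel_nonneg (J : V → V → ℝ) (t : ℝ) (u : Perm V) : 0 ≤ hel J 0 t u := by
  unfold hel
  exact Finset.sum_nonneg fun g _ => sq_nonneg _

/-- Minkowski's inequality -/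
theorem mink {ι : Type} [Fintype ι] (a b : ι → ℝ) :
    Real.sqrt (∑ i, (a i + b i) ^ 2) ≤ Real.sqrt (∑ i, a i ^ 2) + Real.sqrt (∑ i, b i ^ 2) := by
  have h := norm_add_le (WithLp.toLp 2 a : EuclideanSpace ℝ ι) (WithLp.toLp 2 b)
  rw [EuclideanSpace.norm_eq, EuclideanSpace.norm_eq, EuclideanSpace.norm_eq] at h
  simpa using h

theorem hel_one (J : V → V → ℝ) (t : ℝ) : hel J 0 t 1 = 0 := by
  unfold hel
  simp

theorem hel_mul (J : V → V → ℝ) (t : ℝ) (g h : Perm V) :
    Real.sqrt (hel J 0 t (g * h)) ≤ Real.sqrt (hel J 0 t g) + Real.sqrt (hel J 0 t h) := by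
  have e1 : hel J 0 t g = ∑ k : Perm V, (Real.sqrt (stirLaw J t (g * (h * k)) + 0) -
      Real.sqrt (stirLaw J t (h * k) + 0)) ^ 2 := by
    unfold hel
    exact (Equiv.sum_comp (Equiv.mulLeft h) (fun k => (Real.sqrt (stirLaw J t (g * k) + 0) -
      Real.sqrt (stirLaw J t k + 0)) ^ 2)).symm
  have h1 := mink (fun k : Perm V => Real.sqrt (stirLaw J t (g * (h * k)) + 0) -
      Real.sqrt (stirLaw J t (h * k) + 0)) (fun k : Perm V => Real.sqrt (stirLaw J t (h * k) + 0) -
      Real.sqrt (stirLaw J t k + 0))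
  rw [e1]
  refine le_trans (le_of_eq ?_) h1
  unfold hel
  congr 1
  refine Finset.sum_congr rfl fun k _ => ?_
  rw [mul_assoc, sub_add_sub_cancel]

/-- multiplication on the right -/
theorem hel_right (J : V → V → ℝ) (t : ℝ) (x y : V) :
    ∑ g : Perm V, (Real.sqrt (stirLaw J t (g * swap x y)) - Real.sqrt (stirLaw J t g)) ^ 2 =
      hel J 0 t (swap x y) := by
  unfold hel
  rw [← Equiv.sum_comp (Equiv.inv (Perm V))]
  refine Finset.sum_congr rfl fun g _ => ?_
  have e1 : (Equiv.inv (Perm V)) g = g⁻¹ := rfl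
  rw [e1, ← law_inv J t (g⁻¹ * swap x y), mul_inv_rev, inv_inv, swap_inv, law_inv, add_zero,
    add_zero]

/-- change of an expectation under the exchange of two points -/
theorem exp_swap {J : V → V → ℝ} (hJ : ∀ x y, 0 ≤ J x y) {t : ℝ} (ht : 0 ≤ t) (x y : V)
    (F : Perm V → ℝ) :
    stirExp J t F - stirExp J t (fun g => F (g * swap x y)) ≤
      Real.sqrt (hel J 0 t (swap x y)) *
        Real.sqrt (2 * (stirExp J t (fun g => F g ^ 2) +
          stirExp J t (fun g => F (g * swap x y) ^ 2))) := by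
  have e0 : ∀ G : Perm V → ℝ, stirExp J t (fun g => G (g * swap x y)) =
      ∑ g, stirLaw J t (g * swap x y) * G g := by
    intro G
    unfold stirExp
    rw [← Equiv.sum_comp (Equiv.mulRight (swap x y))]
    refine Finset.sum_congr rfl fun g _ => ?_
    have e1 : (Equiv.mulRight (swap x y)) g = g * swap x y := rfl
    rw [e1]
    beta_reduce
    rw [mul_assoc g, swap_mul_self, mul_one]
  obtain ⟨a, ha⟩ : ∃ a : Perm V → ℝ, a = fun g => Real.sqrt (stirLaw J t g) := ⟨_, rfl⟩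
  obtain ⟨b, hb⟩ : ∃ b : Perm V → ℝ, b = fun g => Real.sqrt (stirLaw J t (g * swap x y)) :=
    ⟨_, rfl⟩
  have ha2 : ∀ g, a g ^ 2 = stirLaw J t g := fun g => by
    rw [ha]; exact Real.sq_sqrt (law_nonneg hJ ht g)
  have hb2 : ∀ g, b g ^ 2 = stirLaw J t (g * swap x y) := fun g => by
    rw [hb]; exact Real.sq_sqrt (law_nonneg hJ ht _)
  have e2 : stirExp J t F - stirExp J t (fun g => F (g * swap x y)) =
      ∑ g, (b g - a g) * (-(b g + a g) * F g) := by
    rw [e0 F]
    unfold stirExp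
    rw [← Finset.sum_sub_distrib]
    refine Finset.sum_congr rfl fun g _ => ?_
    rw [← ha2, ← hb2]
    ring
  have e3 : ∑ g, (b g - a g) ^ 2 = hel J 0 t (swap x y) := by
    rw [← hel_right, ha, hb]
  have e4 : ∑ g, (-(b g + a g) * F g) ^ 2 ≤ 2 * (stirExp J t (fun g => F g ^ 2) +
          stirExp J t (fun g => F (g * swap x y) ^ 2)) := by
    rw [e0 (fun g => F g ^ 2)]
    unfold stirExp
    rw [← Finset.sum_add_distrib, Finset.mul_sum]
    refine Finset.sum_le_sum fun g _ => ?_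
    rw [← ha2, ← hb2]
    nlinarith [mul_nonneg (sq_nonneg (b g - a g)) (sq_nonneg (F g))]
  rw [e2, ← e3]
  have h5 := Finset.sum_mul_sq_le_sq_mul_sq Finset.univ (fun g => b g - a g)
    (fun g => -(b g + a g) * F g)
  have h6 := Real.le_sqrt_of_sq_le h5
  refine h6.trans ?_
  rw [Real.sqrt_mul (Finset.sum_nonneg fun g _ => sq_nonneg _)]
  exact mul_le_mul_of_nonneg_left (Real.sqrt_le_sqrt e4) (Real.sqrt_nonneg _)

end gen

/-- the bound for one edge -/
noncomputable def h1 (d : ℕ) (t : ℝ) : ℝ := d * (2 + Real.log (3 + 2 * t)) / (2 * t)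

theorem edge {d L : ℕ} [NeZero L] (hL : 3 ≤ L) {t : ℝ} (ht : 0 < t) (x0 y0 : Fin d → ZMod L)
    (hxy : nnRate d L x0 y0 ≠ 0) : hel (nnRate d L) 0 t (swap x0 y0) ≤ h1 d t := by
  have hT : S_TRI := Pool.Agent.Y657.PD.TRI.main
  have hL0 : (0 : ℝ) < (L : ℝ) ^ d := by
    have : (0 : ℝ) < L := by exact_mod_cast (show 0 < L by omega)
    positivity
  obtain ⟨h0, hh0⟩ : ∃ h, h = hel (nnRate d L) 0 t (swap x0 y0) := ⟨_, rfl⟩
  have hJ1 : nnRate d L x0 y0 = 1 := by
    unfold nnRate at hxy ⊢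
    by_contra hc
    apply hxy
    split_ifs at hc ⊢
    · exact absurd rfl hc
    · rfl
  obtain ⟨w, hw⟩ : ∃ w, w = y0 - x0 := ⟨_, rfl⟩
  have hne : ∀ x : Fin d → ZMod L, x + w ≠ x - w := by
    intro x h
    have hex : ∃ a, y0 = Function.update x0 a (x0 a + 1) ∨ x0 = Function.update y0 a (y0 a + 1) := by
      by_contra hc
      apply hxy
      unfold nnRate
      rw [if_neg hc]
    obtain ⟨a, h1 | h1⟩ := hex
    · have h2 : w a = 1 := by rw [hw, Pi.sub_apply, h1]; simp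
      have h3 := congrFun h a
      rw [Pi.add_apply, Pi.sub_apply, h2] at h3
      exact two_ne hL _ h3
    · have h2 : w a = -1 := by rw [hw, Pi.sub_apply, h1]; simp
      have h3 := congrFun h a
      rw [Pi.add_apply, Pi.sub_apply, h2] at h3
      apply two_ne hL (x a)
      rw [sub_neg_eq_add] at h3
      rw [← h3]
      ring
  have hp : ∀ x : Fin d → ZMod L, nnRate d L x (x + w) = 1 ∧
      hel (nnRate d L) 0 t (swap x (x + w)) = h0 := by
    intro x
    have e1 : x = x0 + (x - x0) := by abel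
    have e2 : x + w = y0 + (x - x0) := by rw [hw]; abel
    rw [e2]
    constructor
    · conv_lhs => rw [e1]
      rw [show x0 + (x - x0) - x0 = x - x0 by abel, Pool.Agent.Y908.PD.EDGE.nn_trans, hJ1]
    · have h3 := Pool.Agent.Y908.PD.EDGE.hel_trans hT t x0 y0 (x - x0)
      rw [← e1] at h3
      rw [h3, hh0]
  have hm : ∀ x : Fin d → ZMod L, nnRate d L x (x - w) = 1 ∧
      hel (nnRate d L) 0 t (swap x (x - w)) = h0 := by
    intro x
    have h1 := hp (x - w)
    rw [sub_add_cancel] at h1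
    rw [nn_symm, swap_comm]
    exact h1
  have hrow : ∀ x : Fin d → ZMod L,
      h0 ≤ ∑ y, nnRate d L x y / 2 * hel (nnRate d L) 0 t (swap x y) := by
    intro x
    have h1 : ∑ y ∈ {x + w, x - w}, nnRate d L x y / 2 * hel (nnRate d L) 0 t (swap x y) = h0 := by
      rw [Finset.sum_pair (hne x), (hp x).1, (hp x).2, (hm x).1, (hm x).2]
      ring
    rw [← h1]
    exact Finset.sum_le_sum_of_subset_of_nonneg (Finset.subset_univ _) fun y _ _ =>
      mul_nonneg (by linarith [nn_nonneg x y]) (hel_nonneg _ _ _)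
  have hcard : (Fintype.card (Fin d → ZMod L) : ℝ) = (L : ℝ) ^ d := by
    rw [Fintype.card_fun, ZMod.card, Fintype.card_fin]
    push_cast
    rfl
  have hsum : (L : ℝ) ^ d * h0 ≤
      ∑ x, ∑ y, nnRate d L x y / 2 * hel (nnRate d L) 0 t (swap x y) := by
    calc (L : ℝ) ^ d * h0 = ∑ _x : Fin d → ZMod L, h0 := by
          rw [Finset.sum_const, Finset.card_univ, nsmul_eq_mul, hcard]
      _ ≤ _ := Finset.sum_le_sum fun x _ => hrow x
  have h1' := t_ENT (Fin d → ZMod L) (nnRate d L) nn_nonneg t ht.le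
  have h2 := t_SUB d L hL t ht.le
  have h3 : 2 * t * ((L : ℝ) ^ d * h0) ≤ (L : ℝ) ^ d * (d * (2 + Real.log (3 + 2 * t))) :=
    (mul_le_mul_of_nonneg_left hsum (by positivity)).trans (h1'.trans h2)
  have h4 : 2 * t * h0 ≤ d * (2 + Real.log (3 + 2 * t)) := by
    have h5 : (L : ℝ) ^ d * (2 * t * h0) ≤ (L : ℝ) ^ d * (d * (2 + Real.log (3 + 2 * t))) := by
      linarith
    exact le_of_mul_le_mul_left h5 hL0
  rw [← hh0]
  unfold h1
  rw [le_div_iff₀ (by positivity)]
  linarith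

/-- any two points -/
theorem hel_dist {d L : ℕ} [NeZero L] (hL : 3 ≤ L) {t : ℝ} (ht : 0 < t)
    (x y : Fin d → ZMod L) : Real.sqrt (hel (nnRate d L) 0 t (swap x y)) ≤
      2 * tdist x y * Real.sqrt (h1 d t) := by
  refine Pool.Agent.Y350.LP.Pos.t_DIST d L hL
    (fun u => Real.sqrt (hel (nnRate d L) 0 t u)) (Real.sqrt (h1 d t)) (Real.sqrt_nonneg _) ?_ ?_
    ?_ x y
  · rw [hel_one, Real.sqrt_zero]
  · exact fun g h => hel_mul _ _ g h
  · intro x i
    refine Real.sqrt_le_sqrt (edge hL ht _ _ ?_)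
    unfold nnRate
    rw [if_pos ⟨i, Or.inl rfl⟩]
    norm_num

end Pool.Agent.Q295.BD
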