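import Pool.Agent.Q295.BD.Four

/-!
# One Fourier coefficient
-/

set_option autoImplicit false
set_option linter.unusedSectionVars false

namespace Pool.Agent.Q295.BD

open Finset Equiv
open Pool.Agent.Y998.ST
open Pool.Agent.Y661.PD (hel)
open Pool.Agent.Y998.LP (tdist)
open Pool.Agent.Q295.TP (sm sm_nonneg sm_le_one gg)

variable {d L : ℕ} [NeZero L]

theorem h1_lower (hd : 1 ≤ d) {t : ℝ} (ht : 1 ≤ t) : 1 / t ≤ h1 d t := by
  unfold h1
  have h2 : 0 ≤ Real.log (3 + 2 * t) := Real.log_nonneg (by linarith)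
  have h3 : (1 : ℝ) ≤ d := by exact_mod_cast hd
  rw [div_le_div_iff₀ (by linarith) (by linarith)]
  have h4 : 2 ≤ d * (2 + Real.log (3 + 2 * t)) := by nlinarith
  nlinarith

/-- one eigenfunction -/
theorem one_k (hL : 3 ≤ L) (hd : 1 ≤ d) {t : ℝ} (ht : 1 ≤ t) {e : (Fin d → ZMod L) → ℝ} {Λ : ℝ}
    (hΛ : 0 ≤ Λ) (he : Eig (nnRate d L) e Λ)
    (hclose : ∀ x y, |e x - e y| ≤ tdist x y * Real.sqrt Λ)
    (h2 : ∀ x, stirExp (nnRate d L) t (fun g => nv e Λ t g x ^ 2) ≤ 2 * (t * Λ))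
    (h4 : ∀ x, stirExp (nnRate d L) t (fun g => nv e Λ t g x ^ 4) ≤ 42 * (t * Λ) ^ 2)
    (S : Finset (Fin d → ZMod L)) (hS : 0 < S.card) (ρ : ℝ) (hρ0 : 0 ≤ ρ)
    (hρ : ∀ x y z, x - z ∈ S → y - z ∈ S → (tdist x y : ℝ) ≤ ρ)
    (hη : ρ * Real.sqrt (h1 d t) ≤ 1) :
    (1 - Real.exp (-(t * Λ))) ^ 2 * (stirExp (nnRate d L) t (fun g => bf g e e) /
      Fintype.card (Fin d → ZMod L) ^ 2) ≤
      2 * (t * Λ) / S.card + 30 * (ρ * Real.sqrt (h1 d t)) * (t * Λ) := by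
  obtain ⟨y, hy⟩ : ∃ y, y = t * Λ := ⟨_, rfl⟩
  obtain ⟨η, hηe⟩ : ∃ η, η = ρ * Real.sqrt (h1 d t) := ⟨_, rfl⟩
  have hη0 : 0 ≤ η := by rw [hηe]; positivity
  have hy0 : 0 ≤ y := by rw [hy]; exact mul_nonneg (by linarith) hΛ
  have ht0 : 0 < t := by linarith
  have hh1 := h1_lower hd ht
  have hh0 : 0 ≤ h1 d t := le_trans (by positivity) hh1
  rw [← hηe] at hη ⊢
  rw [← hy] at h2 h4 ⊢
  rw [hy]
  refine local_exp nn_nonneg (by linarith) S hS (by rw [← hy]; positivity)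
    (fun x => by rw [← hy]; exact h2 x) ?_
  rintro x x' hxx ⟨z, hxz, hyz⟩
  rw [← hy]
  have hδ : |e x' - e x| ≤ ρ * Real.sqrt Λ :=
    (hclose x' x).trans (mul_le_mul_of_nonneg_right (hρ x' x z hyz hxz) (Real.sqrt_nonneg _))
  have h5 := corr nn_nonneg nn_symm (nn_diag hL) hΛ he (by linarith) hxx hδ h2 h4
  obtain ⟨δ, hδe⟩ : ∃ δ, δ = ρ * Real.sqrt Λ := ⟨_, rfl⟩
  rw [← hδe] at h5
  have hδ0 : 0 ≤ δ := by rw [hδe]; positivity
  have hδ2 : δ ^ 2 ≤ η ^ 2 * y := by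
    rw [hδe, hηe, mul_pow, mul_pow, Real.sq_sqrt hΛ, Real.sq_sqrt hh0, hy]
    have h6 : 1 ≤ h1 d t * t := by
      rw [div_le_iff₀ ht0] at hh1
      exact hh1
    have h7 := mul_le_mul_of_nonneg_left h6 (mul_nonneg (sq_nonneg ρ) hΛ)
    nlinarith
  have hδ1 : δ ≤ η * Real.sqrt y := by
    have h6 := Real.sqrt_le_sqrt hδ2
    rwa [Real.sqrt_sq hδ0, Real.sqrt_mul (sq_nonneg _), Real.sqrt_sq hη0] at h6
  have hsy := Real.sq_sqrt hy0
  have hsy0 := Real.sqrt_nonneg y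
  have hK2 : Real.sqrt (2 * y) ≤ 3 / 2 * Real.sqrt y := by
    rw [Real.sqrt_mul (by norm_num)]
    refine mul_le_mul_of_nonneg_right ?_ hsy0
    rw [show (3 / 2 : ℝ) = Real.sqrt ((3 / 2) ^ 2) by rw [Real.sqrt_sq (by norm_num)]]
    exact Real.sqrt_le_sqrt (by norm_num)
  have h6 : δ * (2 * Real.sqrt (2 * y) + δ) ≤ 4 * η * y := by
    have h7 : 2 * Real.sqrt (2 * y) + δ ≤ 4 * Real.sqrt y := by nlinarith
    calc δ * (2 * Real.sqrt (2 * y) + δ) ≤ (η * Real.sqrt y) * (4 * Real.sqrt y) :=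
          mul_le_mul hδ1 h7 (by positivity) (by positivity)
      _ = 4 * η * Real.sqrt y ^ 2 := by ring
      _ = _ := by rw [hsy]
  have h7 : Real.sqrt (hel (nnRate d L) 0 t (swap x x')) ≤ 2 * η := by
    refine (hel_dist hL ht0 x x').trans ?_
    have h8 := mul_le_mul_of_nonneg_right (hρ x x' z hxz hyz) (Real.sqrt_nonneg (h1 d t))
    rw [← hηe] at h8
    linarith
  have h8 : Real.sqrt (2 * (9 * (42 * y ^ 2) + 8 * δ ^ 4)) ≤ 28 * y := by
    rw [show 28 * y = Real.sqrt ((28 * y) ^ 2) by rw [Real.sqrt_sq (by positivity)]]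
    apply Real.sqrt_le_sqrt
    have hη2 : η ^ 2 ≤ 1 := by nlinarith
    have h9 : δ ^ 2 ≤ y := by
      have := mul_le_mul_of_nonneg_right hη2 hy0
      linarith
    have h10 : (δ ^ 2) ^ 2 ≤ y ^ 2 := pow_le_pow_left₀ (sq_nonneg _) h9 2
    nlinarith
  have h9 : Real.sqrt (hel (nnRate d L) 0 t (swap x x')) *
      Real.sqrt (2 * (9 * (42 * y ^ 2) + 8 * δ ^ 4)) ≤ (2 * η) * (28 * y) :=
    mul_le_mul h7 h8 (Real.sqrt_nonneg _) (by positivity)
  nlinarith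

/-- Fourier coefficient of the two point function -/
noncomputable def gh (t : ℝ) (k : Fin d → ZMod L) : ℝ :=
  (∑ x, ∑ y, gg (nnRate d L) t x y * co k x y) / Fintype.card (Fin d → ZMod L) ^ 2

theorem gh_eq (t : ℝ) (k : Fin d → ZMod L) : gh t k =
    stirExp (nnRate d L) t (fun g => bf g (cc k) (cc k)) / Fintype.card (Fin d → ZMod L) ^ 2 +
    stirExp (nnRate d L) t (fun g => bf g (ss k) (ss k)) /
      Fintype.card (Fin d → ZMod L) ^ 2 := by
  unfold gh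
  rw [← add_div, ← e_add]
  congr 1
  have e1 : (fun g : Perm (Fin d → ZMod L) => bf g (cc k) (cc k) + bf g (ss k) (ss k)) =
      fun g => ∑ x, ∑ y, co k x y * sm g x y := by
    funext g
    unfold bf co
    rw [← Finset.sum_add_distrib]
    refine Finset.sum_congr rfl fun x _ => ?_
    rw [← Finset.sum_add_distrib]
    exact Finset.sum_congr rfl fun y _ => by ring
  rw [e1, ← exp_sum]
  refine Finset.sum_congr rfl fun x _ => ?_
  rw [← exp_sum]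
  refine Finset.sum_congr rfl fun y _ => ?_
  rw [e_mul]
  unfold gg
  ring

theorem gh_nonneg {t : ℝ} (ht : 0 ≤ t) (k : Fin d → ZMod L) : 0 ≤ gh t k := by
  rw [gh_eq]
  refine add_nonneg (div_nonneg ?_ (by positivity)) (div_nonneg ?_ (by positivity))
  · exact exp_nonneg nn_nonneg ht fun g => bf_nonneg g _
  · exact exp_nonneg nn_nonneg ht fun g => bf_nonneg g _

/-- the bound for one Fourier coefficient -/
theorem gh_le (hL : 3 ≤ L) (hd : 1 ≤ d) {t : ℝ} (ht : 1 ≤ t) (k : Fin d → ZMod L)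
    (hk : 0 < Lk k) (S : Finset (Fin d → ZMod L)) (hS : 0 < S.card) (ρ : ℝ) (hρ0 : 0 ≤ ρ)
    (hρ : ∀ x y z, x - z ∈ S → y - z ∈ S → (tdist x y : ℝ) ≤ ρ)
    (hη : ρ * Real.sqrt (h1 d t) ≤ 1) :
    gh t k ≤ (4 / S.card + 60 * (ρ * Real.sqrt (h1 d t))) * (1 + t * Lk k) ^ 2 /
      (t * Lk k) := by
  have ht0 : (0 : ℝ) ≤ t := by linarith
  have hq : ∀ x : Fin d → ZMod L, stirExp (nnRate d L) t (fun g =>
      nv (cc k) (Lk k) t g x ^ 2) ≤ 2 * (t * Lk k) := fun x =>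
    (exp_mono nn_nonneg ht0 fun g => by
      have := sq_nonneg (nv (ss k) (Lk k) t g x); linarith).trans (nz_le hL ht0 k x)
  have hq' : ∀ x : Fin d → ZMod L, stirExp (nnRate d L) t (fun g =>
      nv (ss k) (Lk k) t g x ^ 2) ≤ 2 * (t * Lk k) := fun x =>
    (exp_mono nn_nonneg ht0 fun g => by
      have := sq_nonneg (nv (cc k) (Lk k) t g x); linarith).trans (nz_le hL ht0 k x)
  have hf : ∀ x : Fin d → ZMod L, stirExp (nnRate d L) t (fun g =>
      nv (cc k) (Lk k) t g x ^ 4) ≤ 42 * (t * Lk k) ^ 2 := fun x =>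
    (exp_mono nn_nonneg ht0 fun g => by
      have h3 := sq_nonneg (nv (cc k) (Lk k) t g x)
      have h4 := sq_nonneg (nv (ss k) (Lk k) t g x)
      nlinarith [mul_nonneg h3 h4, sq_nonneg (nv (ss k) (Lk k) t g x ^ 2)]).trans (nz_four hL ht k x)
  have hf' : ∀ x : Fin d → ZMod L, stirExp (nnRate d L) t (fun g =>
      nv (ss k) (Lk k) t g x ^ 4) ≤ 42 * (t * Lk k) ^ 2 := fun x =>
    (exp_mono nn_nonneg ht0 fun g => by
      have h3 := sq_nonneg (nv (cc k) (Lk k) t g x)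
      have h4 := sq_nonneg (nv (ss k) (Lk k) t g x)
      nlinarith [mul_nonneg h3 h4, sq_nonneg (nv (cc k) (Lk k) t g x ^ 2)]).trans (nz_four hL ht k x)
  have h5 := one_k hL hd ht hk.le (eig_cc hL k) (cc_close k) hq hf S hS ρ hρ0 hρ hη
  have h6 := one_k hL hd ht hk.le (eig_ss hL k) (ss_close k) hq' hf' S hS ρ hρ0 hρ hη
  obtain ⟨y, hy⟩ : ∃ y, y = t * Lk k := ⟨_, rfl⟩
  have hy0 : 0 < y := by rw [hy]; exact mul_pos (by linarith) hk
  have h7 := add_le_add h5 h6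
  rw [← mul_add, ← gh_eq] at h7
  rw [← hy] at h7 ⊢
  have hg := gh_nonneg ht0 k
  have h8 : y / (1 + y) ≤ 1 - Real.exp (-y) := by
    have h9 : Real.exp (-y) * Real.exp y = 1 := by rw [← Real.exp_add]; simp
    have h10 := Real.add_one_le_exp y
    have h11 := Real.exp_pos (-y)
    rw [div_le_iff₀ (by linarith)]
    nlinarith
  have h9 : (y / (1 + y)) ^ 2 ≤ (1 - Real.exp (-y)) ^ 2 := pow_le_pow_left₀ (by positivity) h8 2
  have h10 := (mul_le_mul_of_nonneg_right h9 hg).trans h7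
  have hm0 : (0 : ℝ) < S.card := by exact_mod_cast hS
  have h11 : gh t k = (y / (1 + y)) ^ 2 * gh t k * ((1 + y) ^ 2 / y ^ 2) := by
    field_simp
  rw [h11]
  refine (mul_le_mul_of_nonneg_right h10 (by positivity)).trans (le_of_eq ?_)
  obtain ⟨A, hA⟩ : ∃ A, A = ρ * Real.sqrt (h1 d t) := ⟨_, rfl⟩
  obtain ⟨M, hM⟩ : ∃ M : ℝ, M = (S.card : ℝ) := ⟨_, rfl⟩
  rw [← hA, ← hM]
  rw [← hM] at hm0
  have h12 : 2 * y / M + 30 * A * y + (2 * y / M + 30 * A * y) = (4 / M + 60 * A) * y := by ring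
  rw [h12, sq y]
  generalize 4 / M + 60 * A = B
  field_simp

end Pool.Agent.Q295.BD
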