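import Pool.Agent.Q295.BD.OneK
import Pool.Agent.Q295.TP.Tor

/-!
# Fourier inversion for the two point function
-/

set_option autoImplicit false
set_option linter.unusedSectionVars false

namespace Pool.Agent.Q295.BD

open Finset Equiv
open Pool.Agent.Y998.ST
open Pool.Agent.Y998.LP (tdist NN)
open Pool.Agent.Q295.TP (sm sm_nonneg sm_le_one gg qq2 gg_trans gg_nonneg gg_le_one)

variable {d L : ℕ} [NeZero L]

theorem card_V : (Fintype.card (Fin d → ZMod L) : ℝ) = (L : ℝ) ^ d := by
  rw [Fintype.card_fun, ZMod.card, Fintype.card_fin]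
  push_cast
  rfl

theorem ac_sum {ι : Type} (s : Finset ι) (f : ι → ZMod L) :
    (ZMod.stdAddChar (∑ i ∈ s, f i) : ℂ) = ∏ i ∈ s, (ZMod.stdAddChar (f i) : ℂ) := by
  classical
  induction s using Finset.induction_on with
  | empty => rw [Finset.sum_empty, Finset.prod_empty, AddChar.map_zero_eq_one]
  | insert a s ha ih => rw [Finset.sum_insert ha, Finset.prod_insert ha,
      AddChar.map_add_eq_mul, ih]

theorem ort (w : Fin d → ZMod L) : ∑ k, cc k w = if w = 0 then (L : ℝ) ^ d else 0 := by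
  classical
  have h1 : ∑ k, th k w = ∏ i, ∑ a : ZMod L, (ZMod.stdAddChar (a * w i) : ℂ) := by
    rw [Finset.prod_univ_sum, Fintype.piFinset_univ]
    refine Finset.sum_congr rfl fun k _ => ?_
    unfold th
    rw [ac_sum]
  have h2 : ∀ i, ∑ a : ZMod L, (ZMod.stdAddChar (a * w i) : ℂ) = if w i = 0 then (L : ℂ) else 0 := by
    intro i
    rw [AddChar.sum_mulShift (w i) (ZMod.isPrimitive_stdAddChar L), ZMod.card]
    split_ifs <;> simp
  have h3 : ∑ k, cc k w = (∑ k, th k w).re := by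
    rw [Complex.re_sum]
    rfl
  rw [h3, h1]
  simp only [h2]
  by_cases hw : w = 0
  · rw [if_pos hw]
    have h4 : ∏ i : Fin d, (if w i = 0 then (L : ℂ) else 0) = (L : ℂ) ^ d := by
      rw [Finset.prod_congr rfl (g := fun _ => (L : ℂ)) (fun i _ => by rw [hw]; simp),
        Finset.prod_const, Finset.card_univ, Fintype.card_fin]
    rw [h4]
    norm_cast
  · rw [if_neg hw]
    obtain ⟨i, hi⟩ := Function.ne_iff.1 hw
    rw [Finset.prod_eq_zero (Finset.mem_univ i) (if_neg hi)]
    rfl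

theorem th_add (k u v : Fin d → ZMod L) : th k (u + v) = th k u * th k v := by
  unfold th
  rw [← AddChar.map_add_eq_mul, ← Finset.sum_add_distrib]
  congr 1
  exact Finset.sum_congr rfl fun i _ => by rw [Pi.add_apply]; ring

theorem cc_mul (k u v : Fin d → ZMod L) : cc k u * cc k v = (cc k (v - u) + cc k (u + v)) / 2 := by
  rw [← co_eq]
  unfold co cc ss
  rw [th_add, Complex.mul_re]
  ring

theorem gh_conv (t : ℝ) (k : Fin d → ZMod L) :
    gh t k = (∑ u, gg (nnRate d L) t 0 u * cc k u) / (L : ℝ) ^ d := by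
  have hN : (Fintype.card (Fin d → ZMod L) : ℝ) ≠ 0 := by
    have : 0 < Fintype.card (Fin d → ZMod L) := Fintype.card_pos
    positivity
  unfold gh
  have h1 : ∀ x : Fin d → ZMod L, ∑ y, gg (nnRate d L) t x y * co k x y =
      ∑ u, gg (nnRate d L) t 0 u * cc k u := by
    intro x
    rw [← Equiv.sum_comp (Equiv.addRight x)]
    refine Finset.sum_congr rfl fun u _ => ?_
    have e1 : (Equiv.addRight x) u = u + x := rfl
    have e2 := gg_trans t (0 : Fin d → ZMod L) u x
    rw [zero_add] at e2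
    rw [e1, e2, co_eq, add_sub_cancel_right]
  simp only [h1]
  have hc : (Fintype.card (Fin d → ZMod L) : ℝ) = (L : ℝ) ^ d := card_V
  rw [Finset.sum_const, Finset.card_univ, nsmul_eq_mul, ← hc]
  field_simp

theorem gg_neg (t : ℝ) (u : Fin d → ZMod L) :
    gg (nnRate d L) t 0 (-u) = gg (nnRate d L) t 0 u := by
  have e2 := gg_trans t (0 : Fin d → ZMod L) (-u) u
  rw [zero_add, neg_add_cancel] at e2
  rw [← e2]
  unfold gg
  congr 1
  funext g
  exact sm_symm g _ _

/-- inversion -/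
theorem planch (hL : 3 ≤ L) (s t : ℝ) : ∑ k : Fin d → ZMod L, gh t k * Real.exp (-(s * Lk k)) =
    stirExp (nnRate d L) s (fun g => gg (nnRate d L) t 0 (g 0)) := by
  classical
  have hLd : (L : ℝ) ^ d ≠ 0 := by
    have : (L : ℝ) ≠ 0 := by exact_mod_cast NeZero.ne L
    positivity
  have h0 : ∀ k : Fin d → ZMod L, Real.exp (-(s * Lk k)) =
      stirExp (nnRate d L) s (fun g => cc k (g 0)) := by
    intro k
    rw [← exp_co hL s k 0]
    congr 1
    funext g
    rw [co_eq, sub_zero]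
  have h1 : ∀ k : Fin d → ZMod L, gh t k * Real.exp (-(s * Lk k)) =
      stirExp (nnRate d L) s (fun g => ∑ u, gg (nnRate d L) t 0 u *
        ((cc k (g 0 - u) + cc k (u + g 0)) / 2 / (L : ℝ) ^ d)) := by
    intro k
    rw [h0, ← e_mul]
    congr 1
    funext g
    rw [gh_conv, div_mul_eq_mul_div, Finset.sum_mul, Finset.sum_div]
    refine Finset.sum_congr rfl fun u _ => ?_
    rw [← cc_mul]
    ring
  simp only [h1]
  rw [exp_sum]
  congr 1
  funext g
  rw [Finset.sum_comm]
  have h2 : ∀ u : Fin d → ZMod L, ∑ k, gg (nnRate d L) t 0 u *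
        ((cc k (g 0 - u) + cc k (u + g 0)) / 2 / (L : ℝ) ^ d) =
      (if u = g 0 then gg (nnRate d L) t 0 u / 2 else 0) +
      (if u = - g 0 then gg (nnRate d L) t 0 u / 2 else 0) := by
    intro u
    rw [← Finset.mul_sum, ← Finset.sum_div, ← Finset.sum_div, Finset.sum_add_distrib, ort, ort]
    have e1 : g 0 - u = 0 ↔ u = g 0 := by rw [sub_eq_zero, eq_comm]
    have e2 : u + g 0 = 0 ↔ u = - g 0 := add_eq_zero_iff_eq_neg
    simp only [e1, e2]
    split_ifs <;> field_simp <;> ring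
  simp only [h2]
  rw [Finset.sum_add_distrib, Finset.sum_ite_eq', Finset.sum_ite_eq', if_pos (Finset.mem_univ _),
    if_pos (Finset.mem_univ _), gg_neg]
  ring

theorem gg_self (t : ℝ) (x : Fin d → ZMod L) : gg (nnRate d L) t x x = 1 := by
  unfold gg
  have h : (fun g : Perm (Fin d → ZMod L) => sm g x x) = fun _ => 1 := by
    funext g
    unfold sm
    rw [if_pos (Perm.SameCycle.refl g x)]
  rw [h, exp_const]

theorem gh_sum (hL : 3 ≤ L) (t : ℝ) : ∑ k : Fin d → ZMod L, gh t k = 1 := by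
  have h1 := planch (d := d) hL 0 t
  simp only [zero_mul, neg_zero, Real.exp_zero, mul_one] at h1
  rw [h1, exp_zero', Perm.one_apply, gg_self]

theorem gh_zero (t : ℝ) : gh t (0 : Fin d → ZMod L) = qq2 (nnRate d L) t := by
  unfold gh qq2
  congr 1
  refine Finset.sum_congr rfl fun x _ => Finset.sum_congr rfl fun y _ => ?_
  have h1 : co (0 : Fin d → ZMod L) x y = 1 := by
    rw [co_eq]
    unfold cc th
    simp
  rw [h1, mul_one]

/-- displacement -/
theorem disp (hL : 3 ≤ L) {s : ℝ} (hs : 0 ≤ s) :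
    stirExp (nnRate d L) s (fun g => (tdist (0 : Fin d → ZMod L) (g 0) : ℝ)) ≤
      d * Real.sqrt (5 * s) := by
  classical
  have hL0 : (0 : ℝ) < L := by exact_mod_cast Nat.pos_of_ne_zero (NeZero.ne L)
  have h1 : ∀ i : Fin d, stirExp (nnRate d L) s (fun g =>
      (((0 : Fin d → ZMod L) i - (g 0) i).valMinAbs.natAbs : ℝ) ^ 2) ≤ 5 * s := by
    intro i
    obtain ⟨k, hk⟩ : ∃ k : Fin d → ZMod L, k = Pi.single i 1 := ⟨_, rfl⟩
    have h2 := exp_co hL s k 0
    have h3 : Lk k = lam (1 : ZMod L) := by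
      unfold Lk
      rw [Finset.sum_eq_single i]
      · rw [hk, Pi.single_eq_same]
      · intro j _ hj
        rw [hk, Pi.single_eq_of_ne hj]
        unfold lam
        rw [rc_zero]
        ring
      · intro h; exact absurd (Finset.mem_univ _) h
    have h4 : ∀ x : Fin d → ZMod L, co k 0 x = rc (0 - x i) := by
      intro x
      rw [co_eq, sub_zero]
      unfold cc th rc
      have e1 : ∑ j, k j * x j = x i := by
        rw [Finset.sum_eq_single i]
        · rw [hk, Pi.single_eq_same, one_mul]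
        · intro j _ hj
          rw [hk, Pi.single_eq_of_ne hj, zero_mul]
        · intro h; exact absurd (Finset.mem_univ _) h
      rw [e1, zero_sub, rc_neg, Complex.conj_re]
    have h5 : lam (1 : ZMod L) ≤ (2 * Real.pi / L) ^ 2 := by
      have h6 : (ZMod.stdAddChar (1 : ZMod L) : ℂ) =
          Complex.exp (((2 * Real.pi / L : ℝ) : ℂ) * Complex.I) := by
        have h7 := ZMod.stdAddChar_coe (N := L) 1
        rw [Int.cast_one] at h7
        rw [h7]
        congr 1
        push_cast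
        ring
      unfold lam rc
      rw [h6, Complex.exp_ofReal_mul_I_re]
      have := Real.one_sub_sq_div_two_le_cos (x := 2 * Real.pi / L)
      linarith
    have h6 : stirExp (nnRate d L) s (fun g => 8 / (L : ℝ) ^ 2 *
        (((0 : Fin d → ZMod L) i - (g 0) i).valMinAbs.natAbs : ℝ) ^ 2) ≤
        stirExp (nnRate d L) s (fun g => 1 + (-1) * co k 0 (g 0)) := by
      refine exp_mono nn_nonneg hs fun g => ?_
      rw [h4]
      have h7 := lam_lower ((0 : ZMod L) - (g 0) i)
      unfold lam at h7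
      rw [div_pow] at h7
      have h8 : (((0 : Fin d → ZMod L) i - (g 0) i).valMinAbs.natAbs : ℝ) ^ 2 =
          ((((0 : ZMod L) - (g 0) i).valMinAbs : ℤ) : ℝ) ^ 2 := by
        rw [Nat.cast_natAbs, Int.cast_abs, sq_abs]
        rfl
      rw [h8]
      have e2 : 8 / (L : ℝ) ^ 2 * ((((0 : ZMod L) - (g 0) i).valMinAbs : ℤ) : ℝ) ^ 2 =
          8 * (((((0 : ZMod L) - (g 0) i).valMinAbs : ℤ) : ℝ) ^ 2 / (L : ℝ) ^ 2) := by ring
      rw [e2]
      linarith
    rw [e_mul, e_add, exp_const, e_mul, h2, h3] at h6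
    have h7 := Real.add_one_le_exp (-(s * lam (1 : ZMod L)))
    have h8 : 8 / (L : ℝ) ^ 2 * stirExp (nnRate d L) s (fun g =>
      (((0 : Fin d → ZMod L) i - (g 0) i).valMinAbs.natAbs : ℝ) ^ 2) ≤
        s * (2 * Real.pi / L) ^ 2 := by
      have := mul_le_mul_of_nonneg_left h5 hs
      linarith
    obtain ⟨X, hX⟩ : ∃ X, X = stirExp (nnRate d L) s (fun g =>
      (((0 : Fin d → ZMod L) i - (g 0) i).valMinAbs.natAbs : ℝ) ^ 2) := ⟨_, rfl⟩
    rw [← hX] at h8 ⊢
    have h9 : 8 * X ≤ s * (4 * Real.pi ^ 2) := by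
      have h10 := mul_le_mul_of_nonneg_left h8 (show (0 : ℝ) ≤ (L : ℝ) ^ 2 by positivity)
      have e3 : (L : ℝ) ^ 2 * (8 / (L : ℝ) ^ 2 * X) = 8 * X := by field_simp
      have e4 : (L : ℝ) ^ 2 * (s * (2 * Real.pi / L) ^ 2) = s * (4 * Real.pi ^ 2) := by
        field_simp
        ring
      rwa [e3, e4] at h10
    have h10 : Real.pi ^ 2 ≤ 10 := by
      have := Real.pi_lt_d2
      have := Real.pi_pos
      nlinarith
    nlinarith
  have h2 : ∀ i : Fin d, stirExp (nnRate d L) s (fun g =>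
      (((0 : Fin d → ZMod L) i - (g 0) i).valMinAbs.natAbs : ℝ)) ≤ Real.sqrt (5 * s) := by
    intro i
    have h3 := Pool.Agent.Q295.TP.exp_sq_le nn_nonneg hs (fun g : Perm (Fin d → ZMod L) =>
      (((0 : Fin d → ZMod L) i - (g 0) i).valMinAbs.natAbs : ℝ) ^ 2) (fun g => sq_nonneg _)
    refine le_trans (le_of_eq ?_) (h3.trans (Real.sqrt_le_sqrt (h1 i)))
    congr 1
    funext g
    rw [Real.sqrt_sq (by positivity)]
  have h3 : (fun g : Perm (Fin d → ZMod L) => (tdist (0 : Fin d → ZMod L) (g 0) : ℝ)) =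
      fun g => ∑ i, (((0 : Fin d → ZMod L) i - (g 0) i).valMinAbs.natAbs : ℝ) := by
    funext g
    unfold tdist
    push_cast
    rfl
  rw [h3, ← exp_sum]
  refine (Finset.sum_le_sum fun i _ => h2 i).trans (le_of_eq ?_)
  rw [Finset.sum_const, Finset.card_univ, Fintype.card_fin, nsmul_eq_mul]

end Pool.Agent.Q295.BD
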