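import Pool.Agent.Q295.BD.Plan

/-!
# The sum over the characters
-/

set_option autoImplicit false
set_option linter.unusedSectionVars false

namespace Pool.Agent.Q295.BD

open Finset Equiv
open Pool.Agent.Y998.ST
open Pool.Agent.Y998.LP (tdist NN)
open Pool.Agent.Q295.TP (sm sm_nonneg sm_le_one gg qq2 gg_trans gg_nonneg gg_le_one)

variable {d L : ℕ} [NeZero L]

theorem gg_low {C t : ℝ} (ht : 0 < t) (hC : 0 ≤ C)
    (hN : ∀ x y : Fin d → ZMod L, NN (nnRate d L) t (swap x y) ≤ C * tdist x y / Real.sqrt t)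
    (y : Fin d → ZMod L) :
    1 / 2 + (-(2 * C / Real.sqrt t)) * tdist 0 y ≤ gg (nnRate d L) t 0 y := by
  classical
  have hst : 0 < Real.sqrt t := Real.sqrt_pos.2 ht
  by_cases hy : 0 = y
  · subst hy
    rw [gg_self]
    have : 0 ≤ 2 * C / Real.sqrt t * (tdist (0 : Fin d → ZMod L) 0 : ℝ) := by positivity
    linarith
  · have h1 := Pool.Agent.Results.MP_b817cf_pr.LocalPoissonDirichlet.two_points (nnRate d L) t 0 y hy
    have h2 : gg (nnRate d L) t 0 y = stirExp (nnRate d L) t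
        (fun g => if g.SameCycle 0 y then 1 else 0) := by
      unfold gg sm
      congr!
    rw [← h2] at h1
    have h3 := (abs_le.1 h1).1
    have h4 := hN 0 y
    have e1 : 2 * C / Real.sqrt t * (tdist 0 y : ℝ) = 2 * (C * tdist 0 y / Real.sqrt t) := by ring
    linarith

theorem low_conv (hL : 3 ≤ L) {C t s : ℝ} (ht : 0 < t) (hs : 0 ≤ s) (hC : 0 ≤ C)
    (hN : ∀ x y : Fin d → ZMod L, NN (nnRate d L) t (swap x y) ≤ C * tdist x y / Real.sqrt t) :
    1 / 2 - 2 * C / Real.sqrt t * (d * Real.sqrt (5 * s)) ≤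
      stirExp (nnRate d L) s (fun g => gg (nnRate d L) t 0 (g 0)) := by
  have hst : 0 < Real.sqrt t := Real.sqrt_pos.2 ht
  have h1 : stirExp (nnRate d L) s (fun g => 1 / 2 + (-(2 * C / Real.sqrt t)) *
      (tdist (0 : Fin d → ZMod L) (g 0) : ℝ)) ≤
      stirExp (nnRate d L) s (fun g => gg (nnRate d L) t 0 (g 0)) :=
    exp_mono nn_nonneg hs fun g => gg_low ht hC hN (g 0)
  rw [e_add, exp_const, e_mul] at h1
  have h2 := mul_le_mul_of_nonneg_left (disp (d := d) hL hs)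
    (show 0 ≤ 2 * C / Real.sqrt t by positivity)
  linarith

/-- weight -/
noncomputable def wz (a : ZMod L) : ℝ := 1 / max 1 |(a.valMinAbs : ℝ)|

theorem wz_nonneg (a : ZMod L) : 0 ≤ wz a := by unfold wz; positivity

theorem wz_sum : ∑ a : ZMod L, wz a ≤ 3 + 2 * Real.log L := by
  have hL : 0 < L := Nat.pos_of_ne_zero (NeZero.ne L)
  obtain ⟨f, hf⟩ : ∃ f : ℤ → ℝ, f = fun m : ℤ => 1 / max 1 |(m : ℝ)| := ⟨_, rfl⟩
  have hpos : ∀ m : ℤ, 0 ≤ f m := fun m => by rw [hf]; positivity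
  have h5 : ∑ a : ZMod L, wz a ≤ ∑ m ∈ Finset.Icc (-(L : ℤ)) L, f m := by
    have h6 : ∑ a : ZMod L, wz a =
        ∑ m ∈ Finset.univ.image (fun k : ZMod L => k.valMinAbs), f m := by
      rw [Finset.sum_image]
      · rw [hf]; rfl
      · intro a _ b _ hab
        exact ZMod.injective_valMinAbs hab
    rw [h6]
    refine Finset.sum_le_sum_of_subset_of_nonneg ?_ fun m _ _ => hpos m
    intro m hm
    obtain ⟨k, _, rfl⟩ := Finset.mem_image.1 hm
    have h7 := ZMod.valMinAbs_mem_Ioc k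
    rw [Finset.mem_Icc]
    have h8 := h7.1
    have h9 := h7.2
    constructor <;> omega
  refine h5.trans ?_
  have h6 : Finset.Icc (-(L : ℤ)) L = insert 0 ((Finset.range L).image (fun m : ℕ => (m : ℤ) + 1) ∪
      (Finset.range L).image (fun m : ℕ => -((m : ℤ) + 1))) := by
    ext m
    simp only [Finset.mem_Icc, Finset.mem_insert, Finset.mem_union, Finset.mem_image,
      Finset.mem_range]
    constructor
    · intro h
      rcases lt_trichotomy m 0 with h0 | h0 | h0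
      · right; right
        exact ⟨(-m - 1).toNat, by omega, by omega⟩
      · left; exact h0
      · right; left
        exact ⟨(m - 1).toNat, by omega, by omega⟩
    · rintro (h | ⟨a, ha, rfl⟩ | ⟨a, ha, rfl⟩) <;> omega
  rw [h6]
  have h7 : ∑ m ∈ insert (0 : ℤ) ((Finset.range L).image (fun m : ℕ => (m : ℤ) + 1) ∪
      (Finset.range L).image (fun m : ℕ => -((m : ℤ) + 1))), f m ≤
      f 0 + (∑ m ∈ (Finset.range L).image (fun m : ℕ => (m : ℤ) + 1), f m +
      ∑ m ∈ (Finset.range L).image (fun m : ℕ => -((m : ℤ) + 1)), f m) := by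
    rw [Finset.sum_insert (by
      simp only [Finset.mem_union, Finset.mem_image, Finset.mem_range]
      rintro (⟨a, _, h⟩ | ⟨a, _, h⟩) <;> omega)]
    refine add_le_add le_rfl ?_
    rw [← Finset.sum_union_inter]
    exact le_add_of_nonneg_right (Finset.sum_nonneg fun m _ => hpos m)
  refine h7.trans ?_
  have hh : ∑ m ∈ Finset.range L, 1 / ((m : ℝ) + 1) ≤ 1 + Real.log L := by
    have h8 := harmonic_le_one_add_log L
    refine le_trans (le_of_eq ?_) h8
    unfold harmonic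
    push_cast
    exact Finset.sum_congr rfl fun m _ => by rw [one_div]
  have h8 : ∑ m ∈ (Finset.range L).image (fun m : ℕ => (m : ℤ) + 1), f m ≤ 1 + Real.log L := by
    rw [Finset.sum_image (by intro a _ b _ hab; simp only at hab; omega)]
    refine le_trans (Finset.sum_le_sum fun m _ => ?_) hh
    rw [hf]
    beta_reduce
    refine one_div_le_one_div_of_le (by positivity) ?_
    push_cast
    exact (le_abs_self _).trans (le_max_right _ _)
  have h9 : ∑ m ∈ (Finset.range L).image (fun m : ℕ => -((m : ℤ) + 1)), f m ≤ 1 + Real.log L := by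
    rw [Finset.sum_image (by intro a _ b _ hab; simp only at hab; omega)]
    refine le_trans (Finset.sum_le_sum fun m _ => ?_) hh
    rw [hf]
    beta_reduce
    refine one_div_le_one_div_of_le (by positivity) ?_
    push_cast
    rw [abs_neg]
    exact (le_abs_self _).trans (le_max_right _ _)
  have h10 : f 0 = 1 := by rw [hf]; simp
  rw [h10]
  linarith

theorem Lk_low (k : Fin d → ZMod L) :
    16 / (L : ℝ) ^ 2 * ∑ i, ((k i).valMinAbs : ℝ) ^ 2 ≤ Lk k := by
  unfold Lk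
  rw [Finset.mul_sum]
  refine Finset.sum_le_sum fun i _ => ?_
  have := lam_lower (k i)
  rw [div_pow] at this
  calc 16 / (L : ℝ) ^ 2 * ((k i).valMinAbs : ℝ) ^ 2
      = 16 * (((k i).valMinAbs : ℝ) ^ 2 / (L : ℝ) ^ 2) := by ring
    _ ≤ _ := this

theorem int_sq (a : ZMod L) (ha : a ≠ 0) : max 1 |(a.valMinAbs : ℝ)| ≤ (a.valMinAbs : ℝ) ^ 2 := by
  have h1 : a.valMinAbs ≠ 0 := by
    intro h
    exact ha ((ZMod.valMinAbs_eq_zero a).1 h)
  have h2 : (1 : ℤ) ≤ |a.valMinAbs| := Int.one_le_abs h1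
  have h3 : (1 : ℝ) ≤ |(a.valMinAbs : ℝ)| := by exact_mod_cast h2
  rw [max_eq_right h3, ← sq_abs]
  nlinarith

theorem prod_le (hd : 1 ≤ d) (hd2 : d ≤ 2) (k : Fin d → ZMod L) (hk : k ≠ 0) :
    ∏ i, max 1 |((k i).valMinAbs : ℝ)| ≤ ∑ i, ((k i).valMinAbs : ℝ) ^ 2 := by
  obtain ⟨i, hi⟩ := Function.ne_iff.1 hk
  rw [Pi.zero_apply] at hi
  interval_cases d
  · rw [Fin.prod_univ_one, Fin.sum_univ_one]
    have : i = 0 := Subsingleton.elim _ _
    subst this
    exact int_sq _ hi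
  · rw [Fin.prod_univ_two, Fin.sum_univ_two]
    by_cases h0 : k 0 = 0
    · have h1 : k 1 ≠ 0 := by
        intro h1
        fin_cases i
        · exact hi h0
        · exact hi h1
      have h2 := int_sq _ h1
      have h3 : max 1 |((k 0).valMinAbs : ℝ)| = 1 := by
        rw [h0, ZMod.valMinAbs_zero]; simp
      rw [h3, one_mul]
      have := sq_nonneg ((k 0).valMinAbs : ℝ)
      linarith
    · by_cases h1 : k 1 = 0
      · have h2 := int_sq _ h0
        have h3 : max 1 |((k 1).valMinAbs : ℝ)| = 1 := by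
          rw [h1, ZMod.valMinAbs_zero]; simp
        rw [h3, mul_one]
        have := sq_nonneg ((k 1).valMinAbs : ℝ)
        linarith
      · have h2 := int_sq _ h0
        have h3 := int_sq _ h1
        have h4 : ∀ a : ZMod L, a ≠ 0 → max 1 |(a.valMinAbs : ℝ)| = |(a.valMinAbs : ℝ)| := by
          intro a ha
          have h1 : a.valMinAbs ≠ 0 := fun h => ha ((ZMod.valMinAbs_eq_zero a).1 h)
          have h2 : (1 : ℤ) ≤ |a.valMinAbs| := Int.one_le_abs h1
          have h3 : (1 : ℝ) ≤ |(a.valMinAbs : ℝ)| := by exact_mod_cast h2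
          exact max_eq_right h3
        rw [h4 _ h0, h4 _ h1]
        have h5 := sq_abs ((k 0).valMinAbs : ℝ)
        have h6 := sq_abs ((k 1).valMinAbs : ℝ)
        nlinarith [sq_nonneg (|((k 0).valMinAbs : ℝ)| - |((k 1).valMinAbs : ℝ)|),
          abs_nonneg ((k 0).valMinAbs : ℝ), abs_nonneg ((k 1).valMinAbs : ℝ)]

theorem inv_le (hd : 1 ≤ d) (hd2 : d ≤ 2) (k : Fin d → ZMod L) (hk : k ≠ 0) :
    0 < Lk k ∧ 1 / Lk k ≤ (L : ℝ) ^ 2 / 16 * ∏ i, wz (k i) := by
  have hL : (0 : ℝ) < L := by exact_mod_cast Nat.pos_of_ne_zero (NeZero.ne L)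
  have h1 := Lk_low k
  have h2 := prod_le hd hd2 k hk
  have h3 : 0 < ∏ i, max 1 |((k i).valMinAbs : ℝ)| := Finset.prod_pos fun i _ => by positivity
  have h4 : 16 / (L : ℝ) ^ 2 * ∏ i, max 1 |((k i).valMinAbs : ℝ)| ≤ Lk k :=
    (mul_le_mul_of_nonneg_left h2 (by positivity)).trans h1
  have h5 : 0 < 16 / (L : ℝ) ^ 2 * ∏ i, max 1 |((k i).valMinAbs : ℝ)| := by positivity
  refine ⟨h5.trans_le h4, (one_div_le_one_div_of_le h5 h4).trans (le_of_eq ?_)⟩
  unfold wz
  rw [Finset.prod_div_distrib, Finset.prod_const_one]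
  field_simp

theorem inv_sum (hd : 1 ≤ d) (hd2 : d ≤ 2) : ∑ k ∈ univ.erase (0 : Fin d → ZMod L), 1 / Lk k ≤
    (L : ℝ) ^ 2 / 16 * (3 + 2 * Real.log L) ^ d := by
  classical
  have h1 : ∑ k ∈ univ.erase (0 : Fin d → ZMod L), 1 / Lk k ≤
      ∑ k ∈ univ.erase (0 : Fin d → ZMod L), (L : ℝ) ^ 2 / 16 * ∏ i, wz (k i) :=
    Finset.sum_le_sum fun k hk => (inv_le hd hd2 k (Finset.ne_of_mem_erase hk)).2
  refine h1.trans ?_
  have h2 : ∑ k ∈ univ.erase (0 : Fin d → ZMod L), (L : ℝ) ^ 2 / 16 * ∏ i, wz (k i) ≤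
      ∑ k : Fin d → ZMod L, (L : ℝ) ^ 2 / 16 * ∏ i, wz (k i) :=
    Finset.sum_le_sum_of_subset_of_nonneg (Finset.erase_subset _ _) fun k _ _ =>
      mul_nonneg (by positivity) (Finset.prod_nonneg fun i _ => wz_nonneg _)
  refine h2.trans ?_
  rw [← Finset.mul_sum]
  refine mul_le_mul_of_nonneg_left ?_ (by positivity)
  have h3 : ∑ k : Fin d → ZMod L, ∏ i, wz (k i) = (∑ a : ZMod L, wz a) ^ d := by
    have h4 : (∑ a : ZMod L, wz a) ^ d = ∏ _i : Fin d, ∑ a : ZMod L, wz a := by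
      rw [Finset.prod_const, Finset.card_univ, Fintype.card_fin]
    rw [h4, Finset.prod_univ_sum, Fintype.piFinset_univ]
  rw [h3]
  exact pow_le_pow_left₀ (Finset.sum_nonneg fun a _ => wz_nonneg a) wz_sum d

/-- the main inequality -/
theorem main_ineq (hL : 3 ≤ L) (hd : 1 ≤ d) (hd2 : d ≤ 2) {t : ℝ} (ht : 1 ≤ t) {C : ℝ}
    (hC : 0 ≤ C)
    (hN : ∀ x y : Fin d → ZMod L, NN (nnRate d L) t (swap x y) ≤ C * tdist x y / Real.sqrt t)
    {s Y : ℝ} (hs : 0 ≤ s) (hY : 0 < Y)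
    (S : Finset (Fin d → ZMod L)) (hS : 0 < S.card) (ρ : ℝ) (hρ0 : 0 ≤ ρ)
    (hρ : ∀ x y z, x - z ∈ S → y - z ∈ S → (tdist x y : ℝ) ≤ ρ)
    (hη : ρ * Real.sqrt (h1 d t) ≤ 1) :
    1 / 2 - 2 * C / Real.sqrt t * (d * Real.sqrt (5 * s)) ≤ qq2 (nnRate d L) t +
      Real.exp (-(s / t * Y)) + (4 / S.card + 60 * (ρ * Real.sqrt (h1 d t))) * (1 + Y) ^ 2 *
        ((L : ℝ) ^ 2 / (16 * t) * (3 + 2 * Real.log L) ^ d) := by
  classical
  have ht0 : 0 < t := by linarith
  obtain ⟨B, hB⟩ : ∃ B, B = 4 / (S.card : ℝ) + 60 * (ρ * Real.sqrt (h1 d t)) := ⟨_, rfl⟩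
  have hB0 : 0 ≤ B := by rw [hB]; positivity
  have h2 := low_conv hL ht0 hs hC hN
  rw [← planch hL s t, ← Finset.add_sum_erase _ _ (Finset.mem_univ (0 : Fin d → ZMod L)),
    gh_zero] at h2
  have e1 : Lk (0 : Fin d → ZMod L) = 0 := by
    unfold Lk lam
    simp [rc_zero]
  rw [e1, mul_zero, neg_zero, Real.exp_zero, mul_one] at h2
  have h3 : ∀ k ∈ univ.erase (0 : Fin d → ZMod L), gh t k * Real.exp (-(s * Lk k)) ≤
      gh t k * Real.exp (-(s / t * Y)) + B * (1 + Y) ^ 2 / t * (1 / Lk k) := by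
    intro k hk
    have hk0 := (inv_le hd hd2 k (Finset.ne_of_mem_erase hk)).1
    have hg := gh_nonneg ht0.le k
    by_cases hc : Y ≤ t * Lk k
    · have h4 : Real.exp (-(s * Lk k)) ≤ Real.exp (-(s / t * Y)) := by
        refine Real.exp_le_exp.2 (neg_le_neg ?_)
        calc s / t * Y ≤ s / t * (t * Lk k) := mul_le_mul_of_nonneg_left hc (by positivity)
          _ = s * Lk k := by field_simp
      have h5 := mul_le_mul_of_nonneg_left h4 hg
      have h6 : 0 ≤ B * (1 + Y) ^ 2 / t * (1 / Lk k) := by positivity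
      linarith
    · push Not at hc
      have h4 := gh_le hL hd ht k hk0 S hS ρ hρ0 hρ hη
      rw [← hB] at h4
      have h5 : gh t k ≤ B * (1 + Y) ^ 2 / t * (1 / Lk k) := by
        refine h4.trans ?_
        have h6 : (1 + t * Lk k) ^ 2 ≤ (1 + Y) ^ 2 :=
          pow_le_pow_left₀ (by positivity) (by linarith) 2
        calc B * (1 + t * Lk k) ^ 2 / (t * Lk k) ≤ B * (1 + Y) ^ 2 / (t * Lk k) :=
              div_le_div_of_nonneg_right (mul_le_mul_of_nonneg_left h6 hB0) (by positivity)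
          _ = _ := by field_simp
      have h6 : gh t k * Real.exp (-(s * Lk k)) ≤ gh t k * 1 :=
        mul_le_mul_of_nonneg_left (Real.exp_le_one_iff.2 (by
          have := mul_nonneg hs hk0.le
          linarith)) hg
      have h7 : 0 ≤ gh t k * Real.exp (-(s / t * Y)) := mul_nonneg hg (Real.exp_pos _).le
      linarith
  have h4 := Finset.sum_le_sum h3
  rw [Finset.sum_add_distrib, ← Finset.sum_mul, ← Finset.mul_sum] at h4
  have h5 : ∑ k ∈ univ.erase (0 : Fin d → ZMod L), gh t k ≤ 1 := by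
    rw [← gh_sum (d := d) hL t]
    exact Finset.sum_le_sum_of_subset_of_nonneg (Finset.erase_subset _ _) fun k _ _ =>
      gh_nonneg ht0.le k
  have h6 := mul_le_mul_of_nonneg_right h5 (Real.exp_pos (-(s / t * Y))).le
  have h7 := mul_le_mul_of_nonneg_left (inv_sum (L := L) hd hd2)
    (show 0 ≤ B * (1 + Y) ^ 2 / t by positivity)
  rw [← hB]
  have e2 : B * (1 + Y) ^ 2 / t * ((L : ℝ) ^ 2 / 16 * (3 + 2 * Real.log L) ^ d) =
      B * (1 + Y) ^ 2 * ((L : ℝ) ^ 2 / (16 * t) * (3 + 2 * Real.log L) ^ d) := by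
    field_simp
  rw [e2] at h7
  linarith

end Pool.Agent.Q295.BD
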