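import Pool.Agent.Q295.BD.Hel
import Pool.Agent.Q295.BD.Eig
import Pool.Agent.Q295.TP.Core

/-!
# The exchange of two points and the correlation of their displacements on one cycle
-/

set_option autoImplicit false

namespace Pool.Agent.Q295.BD

open Finset Equiv
open Pool.Agent.Y998.ST
open Pool.Agent.Y661.PD (hel)
open Pool.Agent.Q295.TP (sm sm_nonneg sm_le_one)
open Pool.Agent.TH268.PD (ret ret_spec)

variable {V : Type} [Fintype V] [DecidableEq V]

theorem fin_two (π : Perm (Fin 2)) : (swap 0 1 * π).SameCycle 0 1 ↔ ¬ π.SameCycle 0 1 := by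
  have h01 : (0 : Fin 2) ≠ 1 := by decide
  rcases (show π 0 = 0 ∨ π 0 = 1 by
    have := (π 0).isLt
    generalize π 0 = a
    fin_cases a <;> simp) with h | h
  · have h1 : (swap 0 1 * π).SameCycle 0 1 := ⟨1, by rw [zpow_one, Perm.mul_apply, h]; simp⟩
    have h2 : ¬ π.SameCycle 0 1 := fun hc => h01 (hc.eq_of_left h)
    tauto
  · have h1 : π.SameCycle 0 1 := ⟨1, by rw [zpow_one, h]⟩
    have h3 : (swap 0 1 * π : Perm (Fin 2)) 0 = 0 := by rw [Perm.mul_apply, h]; simp
    have h2 : ¬ (swap 0 1 * π).SameCycle 0 1 := fun hc => h01 (hc.eq_of_left h3)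
    tauto

/-- a transposition of two points toggles whether they are in one cycle -/
theorem toggle (g : Perm V) {x y : V} (hxy : x ≠ y) :
    (g * swap x y).SameCycle x y ↔ ¬ g.SameCycle x y := by
  have hb : Function.Injective (![x, y] : Fin 2 → V) := by
    intro i j hij
    fin_cases i <;> fin_cases j <;> simp_all
  obtain ⟨_, h2, _, h4⟩ := ret_spec 2 ![x, y] hb
  have e1 : g * swap x y = swap x y * (swap x y * g * (swap x y)⁻¹) := by
    rw [swap_inv, mul_assoc (swap x y) g, ← mul_assoc (swap x y) (swap x y), swap_mul_self, one_mul]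
  obtain ⟨w, hw⟩ : ∃ w, w = swap x y * g * (swap x y)⁻¹ := ⟨_, rfl⟩
  have e2 : w.SameCycle x y ↔ g.SameCycle x y := by
    rw [hw, Perm.sameCycle_conj, swap_inv, swap_apply_left, swap_apply_right]
    exact Perm.sameCycle_comm
  have e3 := h4 (swap x y * w) 0 1
  have e4 := h4 w 0 1
  have e5 := h2 w 0 1
  simp only [Matrix.cons_val_zero, Matrix.cons_val_one] at e3 e4 e5
  rw [e1, ← hw, ← e2, ← e3, ← e4, e5]
  exact fin_two _

theorem sm_toggle (g : Perm V) {x y : V} (hxy : x ≠ y) :
    sm (g * swap x y) x y = 1 - sm g x y := by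
  have h := toggle g hxy
  unfold sm
  by_cases h1 : g.SameCycle x y
  · rw [if_pos h1, if_neg (by tauto)]; norm_num
  · rw [if_neg h1, if_pos (by tauto)]; norm_num

theorem sm_idem (g : Perm V) (x y : V) : sm g x y ^ 2 = sm g x y := by
  unfold sm; split_ifs <;> norm_num

theorem e_add (J : V → V → ℝ) (t : ℝ) (F G : Perm V → ℝ) :
    stirExp J t (fun g => F g + G g) = stirExp J t F + stirExp J t G := by
  unfold stirExp
  rw [← Finset.sum_add_distrib]
  exact Finset.sum_congr rfl fun g _ => by ring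

theorem e_mul (J : V → V → ℝ) (t : ℝ) (c : ℝ) (F : Perm V → ℝ) :
    stirExp J t (fun g => c * F g) = c * stirExp J t F := by
  unfold stirExp
  rw [Finset.mul_sum]
  exact Finset.sum_congr rfl fun g _ => by ring

/-- the centred value -/
noncomputable def nv (e : V → ℝ) (Λ t : ℝ) (g : Perm V) (x : V) : ℝ :=
  e (g x) - Real.exp (-(t * Λ)) * e x

/-- negative correlation of the centred values -/
theorem nv_two {J : V → V → ℝ} (hJ : ∀ x y, 0 ≤ J x y) (hs : ∀ x y, J x y = J y x)
    (h0 : ∀ x, J x x = 0) {e : V → ℝ} {Λ : ℝ} (he : Eig J e Λ) {t : ℝ} (ht : 0 ≤ t) {x x' : V}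
    (hx : x ≠ x') : stirExp J t (fun g => nv e Λ t g x * nv e Λ t g x') ≤ 0 := by
  obtain ⟨c, hc⟩ : ∃ c, c = Real.exp (-(t * Λ)) := ⟨_, rfl⟩
  have h1 := eig_two hJ hs h0 he ht hx
  have h2 := eig_one hs h0 he t x
  have h3 := eig_one hs h0 he t x'
  rw [← hc] at h1 h2 h3
  have e1 : (fun g : Perm V => nv e Λ t g x * nv e Λ t g x') = fun g =>
      e (g x) * e (g x') + ((-(c * e x')) * e (g x) + ((-(c * e x)) * e (g x') +
        c ^ 2 * (e x * e x'))) := by
    funext g
    unfold nv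
    rw [← hc]
    ring
  rw [e1, e_add, e_add, e_add, e_mul, e_mul, h2, h3, exp_const]
  nlinarith

/-- the correlation of two centred values on the event that the points are in one cycle -/
theorem corr {J : V → V → ℝ} (hJ : ∀ x y, 0 ≤ J x y) (hs : ∀ x y, J x y = J y x)
    (h0 : ∀ x, J x x = 0) {e : V → ℝ} {Λ : ℝ} (hΛ : 0 ≤ Λ) (he : Eig J e Λ) {t : ℝ} (ht : 0 ≤ t)
    {x x' : V} (hx : x ≠ x') {δ K2 K4 : ℝ} (hδ : |e x' - e x| ≤ δ)
    (hK2 : ∀ z, stirExp J t (fun g => nv e Λ t g z ^ 2) ≤ K2)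
    (hK4 : ∀ z, stirExp J t (fun g => nv e Λ t g z ^ 4) ≤ K4) :
    2 * stirExp J t (fun g => nv e Λ t g x * nv e Λ t g x' * sm g x x') ≤
      δ * (2 * Real.sqrt K2 + δ) +
        Real.sqrt (hel J 0 t (swap x x')) * Real.sqrt (2 * (9 * K4 + 8 * δ ^ 4)) := by
  obtain ⟨c, hc⟩ : ∃ c, c = Real.exp (-(t * Λ)) := ⟨_, rfl⟩
  have hc0 : 0 ≤ c := by rw [hc]; exact (Real.exp_pos _).le
  have hc1 : c ≤ 1 := by
    rw [hc]
    exact Real.exp_le_one_iff.2 (by nlinarith [mul_nonneg ht hΛ])
  have hδ0 : 0 ≤ δ := (abs_nonneg _).trans hδ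
  obtain ⟨D, hD⟩ : ∃ D, D = e x' - e x := ⟨_, rfl⟩
  rw [← hD] at hδ
  obtain ⟨n, hn⟩ : ∃ n : Perm V → V → ℝ, n = fun g z => nv e Λ t g z := ⟨_, rfl⟩
  have hn' : ∀ g z, nv e Λ t g z = n g z := fun g z => by rw [hn]
  have hnz : ∀ g z, n g z = e (g z) - c * e z := fun g z => by rw [hn, hc]; rfl
  simp only [hn'] at hK2 hK4 ⊢
  -- the two functions
  have hsw : ∀ g : Perm V, n (g * swap x x') x * n (g * swap x x') x' * sm (g * swap x x') x x' =
      (n g x' + c * D) * (n g x - c * D) * (1 - sm g x x') := by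
    intro g
    rw [sm_toggle g hx]
    simp only [hnz, Perm.mul_apply, swap_apply_left, swap_apply_right, hD]
    ring
  have hQ : ∀ g : Perm V, (n g x' + c * D) * (n g x - c * D) =
      n g x * n g x' - c * (e (g x') - e (g x)) * D := by
    intro g
    simp only [hnz, hD]
    ring
  have h1 := exp_swap hJ ht x x' (fun g => n g x * n g x' * sm g x x')
  simp only [hsw] at h1
  -- first term
  have h2 : stirExp J t (fun g => n g x * n g x' * sm g x x') +
      stirExp J t (fun g => n g x * n g x' * (1 - sm g x x')) ≤ 0 := by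
    rw [← e_add]
    have e2 := nv_two hJ hs h0 he ht hx
    simp only [hn'] at e2
    refine le_trans (le_of_eq ?_) e2
    congr 1
    funext g
    ring
  -- bound of the correction
  have hN1 : ∀ z, stirExp J t (fun g => |n g z|) ≤ Real.sqrt K2 := by
    intro z
    have h3 := Pool.Agent.Q295.TP.exp_sq_le hJ ht (fun g => n g z ^ 2) (fun g => sq_nonneg _)
    simp only [Real.sqrt_sq_eq_abs] at h3
    exact h3.trans (Real.sqrt_le_sqrt (hK2 z))
  have h4 : stirExp J t (fun g => (n g x' + c * D) * (n g x - c * D) * (1 - sm g x x')) ≤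
      stirExp J t (fun g => n g x * n g x' * (1 - sm g x x')) + δ * (2 * Real.sqrt K2 + δ) := by
    have h5 : stirExp J t (fun g => (n g x' + c * D) * (n g x - c * D) * (1 - sm g x x')) ≤
        stirExp J t (fun g => n g x * n g x' * (1 - sm g x x') +
          δ * ((|n g x'| + |n g x|) + δ)) := by
      refine exp_mono hJ ht fun g => ?_
      rw [hQ]
      have h6 : |c * (e (g x') - e (g x)) * D| ≤ δ * ((|n g x'| + |n g x|) + δ) := by
        have e3 : e (g x') - e (g x) = n g x' - n g x + c * D := by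
          rw [hnz, hnz, hD]
          ring
        have e4 : |e (g x') - e (g x)| ≤ (|n g x'| + |n g x|) + δ := by
          rw [e3]
          refine (abs_add_le _ _).trans (add_le_add (abs_sub _ _) ?_)
          rw [abs_mul, abs_of_nonneg hc0]
          nlinarith [abs_nonneg D]
        rw [abs_mul, abs_mul, abs_of_nonneg hc0]
        have e5 : 0 ≤ (|n g x'| + |n g x|) + δ := by positivity
        calc c * |e (g x') - e (g x)| * |D| ≤ 1 * ((|n g x'| + |n g x|) + δ) * δ := by
              refine mul_le_mul ?_ hδ (abs_nonneg _) (by positivity)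
              exact mul_le_mul hc1 e4 (abs_nonneg _) (by norm_num)
          _ = _ := by ring
      have h7 := sm_nonneg g x x'
      have h8 := sm_le_one g x x'
      have h9 := (abs_le.1 h6).1
      have h10 : 0 ≤ δ * ((|n g x'| + |n g x|) + δ) := (abs_nonneg _).trans h6
      nlinarith [mul_nonneg h10 h7, mul_nonneg (show 0 ≤ 1 - sm g x x' by linarith)
        (show 0 ≤ c * (e (g x') - e (g x)) * D + δ * ((|n g x'| + |n g x|) + δ) by linarith)]
    refine h5.trans ?_
    rw [e_add, e_mul, e_add, e_add, exp_const]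
    have h6 := mul_le_mul_of_nonneg_left (add_le_add (hN1 x') (hN1 x)) hδ0
    nlinarith
  -- second moments
  have h5 : stirExp J t (fun g => (n g x * n g x' * sm g x x') ^ 2) ≤ K4 := by
    have h6 : stirExp J t (fun g => (n g x * n g x' * sm g x x') ^ 2) ≤
        stirExp J t (fun g => (1 / 2) * (n g x ^ 4 + n g x' ^ 4)) := by
      refine exp_mono hJ ht fun g => ?_
      rw [mul_pow, sm_idem]
      have h7 := sm_nonneg g x x'
      have h8 := sm_le_one g x x'
      have h9 : (n g x * n g x') ^ 2 ≤ (1 / 2) * (n g x ^ 4 + n g x' ^ 4) := by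
        nlinarith [sq_nonneg (n g x ^ 2 - n g x' ^ 2)]
      nlinarith [sq_nonneg (n g x * n g x'), mul_nonneg (sq_nonneg (n g x * n g x'))
        (show 0 ≤ 1 - sm g x x' by linarith)]
    refine h6.trans ?_
    rw [e_mul, e_add]
    linarith [hK4 x, hK4 x']
  have h6 : stirExp J t (fun g => ((n g x' + c * D) * (n g x - c * D) * (1 - sm g x x')) ^ 2) ≤
      8 * K4 + 8 * δ ^ 4 := by
    have h7 : stirExp J t (fun g => ((n g x' + c * D) * (n g x - c * D) * (1 - sm g x x')) ^ 2) ≤
        stirExp J t (fun g => 4 * (n g x ^ 4 + n g x' ^ 4) + 8 * δ ^ 4) := by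
      refine exp_mono hJ ht fun g => ?_
      have h7 := sm_nonneg g x x'
      have h8 := sm_le_one g x x'
      have hcD : (c * D) ^ 4 ≤ δ ^ 4 := by
        have h9 : |c * D| ≤ δ := by
          rw [abs_mul, abs_of_nonneg hc0]
          nlinarith [abs_nonneg D]
        calc (c * D) ^ 4 = |c * D| ^ 4 := by rw [← abs_pow]; exact (abs_of_nonneg (by positivity)).symm
          _ ≤ δ ^ 4 := pow_le_pow_left₀ (abs_nonneg _) h9 4
      have hp : ∀ a b : ℝ, (a + b) ^ 4 ≤ 8 * (a ^ 4 + b ^ 4) := by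
        intro a b
        have h9 : (a + b) ^ 2 ≤ 2 * (a ^ 2 + b ^ 2) := by nlinarith [sq_nonneg (a - b)]
        have h10 : ((a + b) ^ 2) ^ 2 ≤ (2 * (a ^ 2 + b ^ 2)) ^ 2 :=
          pow_le_pow_left₀ (sq_nonneg _) h9 2
        nlinarith [sq_nonneg (a ^ 2 - b ^ 2)]
      have h9 := hp (n g x') (c * D)
      have h10 := hp (n g x) (-(c * D))
      have h11 : (-(c * D)) ^ 4 = (c * D) ^ 4 := by ring
      rw [h11, ← sub_eq_add_neg] at h10
      have h12 : ((n g x' + c * D) * (n g x - c * D)) ^ 2 ≤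
          (1 / 2) * ((n g x' + c * D) ^ 4 + (n g x - c * D) ^ 4) := by
        nlinarith [sq_nonneg ((n g x' + c * D) ^ 2 - (n g x - c * D) ^ 2)]
      have h13 : (1 - sm g x x') ^ 2 ≤ 1 := by nlinarith
      rw [mul_pow]
      have h14 : ((n g x' + c * D) * (n g x - c * D)) ^ 2 * (1 - sm g x x') ^ 2 ≤
          ((n g x' + c * D) * (n g x - c * D)) ^ 2 * 1 :=
        mul_le_mul_of_nonneg_left h13 (sq_nonneg _)
      linarith
    refine h7.trans ?_
    rw [e_add, e_mul, e_add, exp_const]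
    linarith [hK4 x, hK4 x']
  have h7 : Real.sqrt (2 * (stirExp J t (fun g => (n g x * n g x' * sm g x x') ^ 2) +
      stirExp J t (fun g => ((n g x' + c * D) * (n g x - c * D) * (1 - sm g x x')) ^ 2))) ≤
      Real.sqrt (2 * (9 * K4 + 8 * δ ^ 4)) := by
    apply Real.sqrt_le_sqrt
    linarith
  have h8 := mul_le_mul_of_nonneg_left h7 (Real.sqrt_nonneg (hel J 0 t (swap x x')))
  linarith

end Pool.Agent.Q295.BD
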